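import Pool.Agent.Helper691_Ssql.Initial

/-!
Counting the classes generated by two commuting involutions, and iterating the boundary step.
-/

namespace Helper691

open Equiv

universe u

/-- Two commuting fixed-point-free involutions without common values have classes of size four. -/
theorem card_eq_four_mul {Φ : Type u} [Finite Φ] (t0 t2 : Φ → Φ) (i0 : ∀ x, t0 (t0 x) = x)
    (i2 : ∀ x, t2 (t2 x) = x) (f0 : ∀ x, t0 x ≠ x) (f2 : ∀ x, t2 x ≠ x)
    (hc : ∀ x, t0 (t2 x) = t2 (t0 x)) (h02 : ∀ x, t0 (t2 x) ≠ x) :
    Nat.card Φ = 4 * ncl t0 t2 := by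
  classical
  have := Fintype.ofFinite Φ
  have := Fintype.ofFinite (Quotient (Cl t0 t2))
  have hcls : ∀ a x, Cl t0 t2 a x ↔ x = a ∨ x = t0 a ∨ x = t2 a ∨ x = t0 (t2 a) := by
    intro a x
    constructor
    · intro h
      have := (Cl.mem_iff i0 i2 {x | x = a ∨ x = t0 a ∨ x = t2 a ∨ x = t0 (t2 a)} ?_ ?_ h).1
        (Or.inl rfl)
      · exact this
      · rintro x (rfl | rfl | rfl | rfl)
        · exact Or.inr (Or.inl rfl)
        · exact Or.inl (i0 _)
        · exact Or.inr (Or.inr (Or.inr rfl))
        · exact Or.inr (Or.inr (Or.inl (i0 _)))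
      · rintro x (rfl | rfl | rfl | rfl)
        · exact Or.inr (Or.inr (Or.inl rfl))
        · exact Or.inr (Or.inr (Or.inr (hc _).symm))
        · exact Or.inl (i2 _)
        · refine Or.inr (Or.inl ?_)
          rw [hc, i2]
    · rintro (rfl | rfl | rfl | rfl)
      · exact (Cl _ _).refl _
      · exact Cl.t1 _ _ _
      · exact Cl.t2 _ _ _
      · exact (Cl _ _).trans (Cl.t2 t0 t2 a) (Cl.t1 t0 t2 (t2 a))
  have hfib : ∀ q : Quotient (Cl t0 t2),
      (Finset.univ.filter (fun x : Φ => Quotient.mk (Cl t0 t2) x = q)).card = 4 := by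
    intro q
    induction q using Quotient.inductionOn with
    | h a =>
      have : (Finset.univ.filter (fun x : Φ => Quotient.mk (Cl t0 t2) x =
          Quotient.mk (Cl t0 t2) a)) = {a, t0 a, t2 a, t0 (t2 a)} := by
        ext x
        simp only [Finset.mem_filter, Finset.mem_univ, true_and, Finset.mem_insert,
          Finset.mem_singleton]
        rw [← hcls]
        constructor
        · intro h
          exact (Cl _ _).symm (Quotient.exact h)
        · intro h
          exact Quotient.sound ((Cl _ _).symm h)
      rw [this]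
      have n1 : t0 a ≠ t2 a := by
        intro h
        have h1 := h02 (t2 a)
        rw [i2] at h1
        exact h1 h
      have n2 : t0 a ≠ t0 (t2 a) := by
        intro h
        have h1 := congrArg t0 h
        rw [i0, i0] at h1
        exact f2 a h1.symm
      rw [Finset.card_insert_of_notMem, Finset.card_insert_of_notMem,
        Finset.card_insert_of_notMem, Finset.card_singleton]
      · rw [Finset.mem_singleton]
        exact (f0 _).symm
      · rw [Finset.mem_insert, Finset.mem_singleton]
        rintro (h | h)
        · exact n1 h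
        · exact n2 h
      · rw [Finset.mem_insert, Finset.mem_insert, Finset.mem_singleton]
        rintro (h | h | h)
        · exact f0 a h.symm
        · exact f2 a h.symm
        · exact h02 a h.symm
  unfold ncl
  rw [Nat.card_eq_fintype_card, Nat.card_eq_fintype_card, ← Finset.card_univ,
    Finset.card_eq_sum_card_fiberwise (f := fun x : Φ => Quotient.mk (Cl t0 t2) x)
      (t := Finset.univ) (fun _ _ => Finset.mem_coe.2 (Finset.mem_univ _)),
    Finset.sum_congr rfl (fun q _ => hfib q)]
  simp
  ring

section step

variable {α V : Type} {n : ℕ} (le : Fin n → α × Bool) (σ : α → Perm V)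

/-- The boundary step. -/
def bstep : V × (Fin n × Bool) → V × (Fin n × Bool) :=
  fun y => (sysOf (finRotate n) le σ).t1 ((sysOf (finRotate n) le σ).t0 y)

theorem bstep_true (v : V) (j : Fin n) :
    bstep le σ (v, (j, true)) = (act σ (le j) v, (finRotate n j, true)) := rfl

theorem bstep_false (v : V) (j : Fin n) :
    bstep le σ (v, (j, false)) = (act σ (flipL (le j)) v, ((finRotate n).symm j, false)) := rfl

theorem bstep_iter_false (k : ℕ) : ∀ x : V × (Fin n × Bool), x.2.2 = false →
    ((bstep le σ)^[k] x).2.2 = false := by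
  induction k with
  | zero => intro x hx; exact hx
  | succ k ih =>
    rintro ⟨v, j, d⟩ hx
    simp only at hx
    subst hx
    rw [Function.iterate_succ_apply, bstep_false]
    exact ih _ rfl

theorem bstep_iter_true (k : ℕ) : ∀ (v : V) (j : Fin n), ∃ v' j', (bstep le σ)^[k] (v, (j, true)) =
    (v', (j', true)) ∧ j'.val = (j.val + k) % n := by
  induction k with
  | zero =>
    intro v j
    refine ⟨v, j, rfl, ?_⟩
    rw [Nat.add_zero, Nat.mod_eq_of_lt j.2]
  | succ k ih =>
    intro v j
    obtain ⟨v', j', h1, h2⟩ := ih (act σ (le j) v) (finRotate n j)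
    refine ⟨v', j', ?_, ?_⟩
    · rw [Function.iterate_succ_apply, bstep_true, h1]
    · rw [h2, finRotate_val, Nat.mod_add_mod]
      congr 1
      omega

end step

end Helper691
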