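import Pool.Agent.Helper691_Ssql.Defs
import Pool.Agent.Helper691_Ssql.Count

/-!
From optimal configurations to efficient ribbon diagrams, and the bounds for products of squares
and of commutators.
-/

namespace Helper691

open Equiv

section assembly

variable {α : Type}

theorem isWalk_iff {w : FreeGroup α} (D : RibbonDiagram w) : ∀ (es : List D.Flag) (x y : D.Flag),
    D.IsWalk x es y ↔ WalkR (Cl D.t1 D.t2) D.t0 x es y
  | [], x, y => Iff.rfl
  | e :: es, x, y => by
    simp only [RibbonDiagram.IsWalk, WalkR]
    rw [isWalk_iff D es]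
    rfl

theorem prod_map_mk (L : List (α × Bool)) :
    (L.map (fun l => FreeGroup.mk [l])).prod = FreeGroup.mk L := by
  induction L with
  | nil => rfl
  | cons l L ih => rw [List.map_cons, List.prod_cons, ih, ← mk_cons]

/-- The diagram of an optimal configuration. -/
theorem exists_diagram {n : ℕ} (hn : 0 < n) (le : Fin n → α × Bool) {V : Type} [Finite V]
    [Nonempty V] (σ : α → Perm V) (t2 : Perm (V × (Fin n × Bool)))
    (hadm : Adm (sysOf (finRotate n) le σ) t2) (hopt : Optimal (finRotate n) le σ t2) :
    ∃ D : RibbonDiagram (FreeGroup.mk (List.ofFn le)), D.Efficient ∧ D.deg = Nat.card V ∧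
      2 * (-D.eulerChar) = (Nat.card V * n : ℤ) -
        2 * (ncl (sysOf (finRotate n) le σ).t1 t2 : ℤ) := by
  classical
  have := Fintype.ofFinite V
  set S := sysOf (finRotate n) le σ with hS
  let o : Fin n := ⟨0, hn⟩
  let mk0 : Finset (V × (Fin n × Bool)) := Finset.univ.image (fun v => (v, (o, true)))
  have hmk0 : ∀ x, x ∈ mk0 ↔ x.2 = (o, true) := by
    rintro ⟨v, l⟩
    simp only [mk0, Finset.mem_image, Finset.mem_univ, true_and]
    constructor
    · rintro ⟨v', h⟩
      exact (congrArg Prod.snd h).symm
    · intro h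
      exact ⟨v, by rw [← h]⟩
  have f0 : ∀ x, S.t0 x ≠ x := by
    intro x h
    have h1 := S.lab0 x
    rw [h] at h1
    exact flipL_ne _ h1.symm
  have f02 : ∀ x, S.t0 (t2 x) ≠ x := by
    intro x h
    have h1 := S.lab0 (t2 x)
    rw [h, hadm.lab2] at h1
    exact flipL_ne _ h1.symm
  have hstep : (fun y => S.t1 (S.t0 y)) = bstep le σ := rfl
  have htrue : ∀ (v : V) (j : Fin n), ∃ k, (bstep le σ)^[k] (v, (j, true)) ∈ mk0 := by
    intro v j
    obtain ⟨v', j', h1, h2⟩ := bstep_iter_true le σ (n - j.val) v j
    refine ⟨n - j.val, ?_⟩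
    rw [h1, hmk0]
    have h3 : j.val + (n - j.val) = n := by
      have := j.2
      omega
    rw [h3, Nat.mod_self] at h2
    have : j' = o := Fin.ext h2
    rw [this]
  have hfalse : ∀ (v : V) (j : Fin n), ¬ ∃ k, (bstep le σ)^[k] (v, (j, false)) ∈ mk0 := by
    rintro v j ⟨k, hk⟩
    rw [hmk0] at hk
    have h1 := bstep_iter_false le σ k (v, (j, false)) rfl
    rw [hk] at h1
    simp at h1
  let D : RibbonDiagram (FreeGroup.mk (List.ofFn le)) :=
    { Flag := V × (Fin n × Bool)
      t0 := S.t0
      t1 := S.t1
      t2 := t2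
      t0_t0 := S.i0
      t1_t1 := S.i1
      t2_t2 := hadm.i2
      t0_ne := f0
      t1_ne := S.f1
      t2_ne := hadm.f2
      t0_t2 := fun x => (hadm.comm x).symm
      t0_t2_ne := f02
      lab := fun x => FreeGroup.mk [S.lab x]
      lab_t0 := fun x => by
        rw [S.lab0, FreeGroup.inv_mk]
        rfl
      lab_t2 := fun x => by rw [hadm.lab2]
      mark := mk0
      mark_nonempty := ⟨(Classical.arbitrary V, (o, true)), by rw [hmk0]⟩
      one_dir := by
        rintro ⟨v, j, d⟩
        rw [hstep]
        cases d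
        · exact Or.inr ⟨htrue _ _, hfalse _ _⟩
        · exact Or.inl ⟨htrue _ _, hfalse _ _⟩
      reads := by
        rintro ⟨v, l⟩ hm
        rw [hmk0] at hm
        simp only at hm
        subst hm
        rw [hstep]
        refine ⟨n, hn, ?_, ?_, ?_⟩
        · obtain ⟨v', j', h1, h2⟩ := bstep_iter_true le σ n v o
          rw [h1, hmk0]
          have h3 : o.val + n = n := by simp [o]
          rw [h3, Nat.mod_self] at h2
          have : j' = o := Fin.ext h2
          rw [this]
        · intro i hi hin hc
          obtain ⟨v', j', h1, h2⟩ := bstep_iter_true le σ i v o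
          rw [h1, hmk0] at hc
          have h3 : o.val + i = i := by simp [o]
          rw [h3, Nat.mod_eq_of_lt hin] at h2
          simp only [Prod.mk.injEq, and_true] at hc
          rw [hc] at h2
          simp only [o] at h2
          omega
        · have h4 : (List.range n).map (fun i => FreeGroup.mk
              [S.lab ((bstep le σ)^[i] (v, (o, true)))]) =
              (List.ofFn le).map (fun l => FreeGroup.mk [l]) := by
            apply List.ext_getElem
            · simp
            · intro i h1 h2
              simp only [List.getElem_map, List.getElem_range, List.getElem_ofFn]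
              have hi : i < n := by simpa using h1
              obtain ⟨v', j', h1, h2⟩ := bstep_iter_true le σ i v o
              have h3 : o.val + i = i := by simp [o]
              rw [h3, Nat.mod_eq_of_lt hi] at h2
              rw [h1]
              have h5 : j' = ⟨i, hi⟩ := Fin.ext h2
              rw [h5]
              rfl
          rw [h4, prod_map_mk] }
  have hlab : ∀ es : List D.Flag, D.label es = FreeGroup.mk (es.map S.lab) := by
    intro es
    have h := prod_map_mk (es.map S.lab)
    rw [List.map_map] at h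
    exact h
  refine ⟨D, ⟨?_, ?_⟩, ?_, ?_⟩
  · intro x es hw hr hne h1
    rw [isWalk_iff] at hw
    rw [hlab] at h1
    exact optimal_injective (finRotate n) le σ t2 hadm hopt es.length es x le_rfl hne hw hr h1
  · intro m₁ hm₁ m₂ hm₂ hne es hw h1
    rw [isWalk_iff] at hw
    rw [hlab] at h1
    have h2 := walk_vtx (finRotate n) le σ t2 hadm.vtx2 es m₁ m₂ hw
    have h3 : FreeGroup.mk (es.map S.lab) = FreeGroup.mk [] := h1
    have h4 := actW_eq σ h3 m₁.1
    rw [h4] at h2
    apply hne
    have e1 : m₁.2 = (o, true) := (hmk0 m₁).1 hm₁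
    have e2 : m₂.2 = (o, true) := (hmk0 m₂).1 hm₂
    exact Prod.ext h2.symm (e1.trans e2.symm)
  · have h1 : mk0.card = Nat.card V := by
      rw [Finset.card_image_of_injective, Finset.card_univ, Nat.card_eq_fintype_card]
      intro v v' h
      exact congrArg Prod.fst h
    exact h1
  · have h1 : Nat.card (V × (Fin n × Bool)) = 4 * ncl S.t0 t2 :=
      card_eq_four_mul S.t0 t2 S.i0 hadm.i2 f0 hadm.f2 (fun x => (hadm.comm x).symm) f02
    have h2 : Nat.card (V × (Fin n × Bool)) = Nat.card V * (n * 2) := by
      rw [Nat.card_prod, Nat.card_prod]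
      simp
    have h3 : D.eulerChar = (ncl S.t1 t2 : ℤ) - (ncl S.t0 t2 : ℤ) := rfl
    rw [h3]
    rw [h2] at h1
    have h4 : ((Nat.card V : ℤ) * (n * 2)) = 4 * (ncl S.t0 t2 : ℤ) := by exact_mod_cast h1
    linarith

/-- The main bound for products described by a list of segments. -/
theorem ssql_le_of_segments {β : Type} [Fintype β] (U : β → List (α × Bool))
    (hU : ∀ b, U b ≠ []) (s : Bool) (S : List (β × Bool)) (hS : S.Nodup) (hS' : ∀ x, x ∈ S)
    (hne : S ≠ []) (w : FreeGroup α) (hw1 : w ≠ 1)
    (hw : (S.map (fun x => if x.2 && s then (FreeGroup.mk (U x.1))⁻¹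
        else FreeGroup.mk (U x.1))).prod = w) :
    ssql w ≤ (((Fintype.card β : ℝ) - 1 : ℝ) : EReal) := by
  classical
  obtain ⟨n, hn, le, t2, hadm, hcount, hle⟩ := initial U hU s S hS hS' hne
  obtain ⟨V, hV, hV', σ, t2', hadm', hopt⟩ := exists_optimal (finRotate n) le
    ⟨Unit, inferInstance, inferInstance, fun _ => 1, t2, hadm⟩
  rw [hw] at hle
  have h1 := hopt Unit (fun _ => 1) t2 hadm
  obtain ⟨D, hD, hdeg, heul⟩ := exists_diagram hn le σ t2' hadm' hopt
  have hVpos : 0 < Nat.card V := Nat.card_pos
  revert D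
  rw [hle]
  intro D hD hdeg heul
  rw [ssql, if_neg hw1]
  refine le_trans (sInf_le ⟨D, hD, rfl⟩) ?_
  rw [EReal.coe_le_coe_iff, hdeg]
  have hVr : (0 : ℝ) < (Nat.card V : ℝ) := by exact_mod_cast hVpos
  rw [div_le_iff₀ hVr]
  have h2 : (2 : ℝ) * (-(D.eulerChar : ℝ)) = (Nat.card V : ℝ) * n -
      2 * (ncl (sysOf (finRotate n) le σ).t1 t2' : ℝ) := by exact_mod_cast heul
  have h3 : (ncl (sysOf (finRotate n) le (fun _ : α => (1 : Perm Unit))).t1 t2 : ℝ) *
      (Nat.card V : ℝ) ≤ (ncl (sysOf (finRotate n) le σ).t1 t2' : ℝ) := by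
    have : (Nat.card Unit) = 1 := by simp
    rw [this, mul_one] at h1
    exact_mod_cast h1
  have h4 : (n : ℝ) + 2 ≤ 2 * (ncl (sysOf (finRotate n) le (fun _ : α => (1 : Perm Unit))).t1 t2 : ℝ)
      + 2 * (Fintype.card β : ℝ) := by exact_mod_cast hcount
  nlinarith

theorem prod_filter {X G : Type} [Group G] (P : X → Prop) [DecidablePred P] (f : X → G)
    (hf : ∀ x, ¬ P x → f x = 1) (a : List X) :
    ((a.filter (fun x => decide (P x))).map f).prod = (a.map f).prod := by
  induction a with
  | nil => rfl
  | cons x a ih =>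
    by_cases hx : P x
    · rw [List.filter_cons_of_pos (by simpa using hx)]
      simp only [List.map_cons, List.prod_cons, ih]
    · rw [List.filter_cons_of_neg (by simpa using hx)]
      simp only [List.map_cons, List.prod_cons, ih, hf x hx, one_mul]

theorem prod_flatMap' {X Y G : Type} [Group G] (F : X → List Y) (f : Y → G) (L : List X) :
    ((L.flatMap F).map f).prod = (L.map (fun i => ((F i).map f).prod)).prod := by
  induction L with
  | nil => rfl
  | cons x L ih => rw [List.flatMap_cons, List.map_append, List.prod_append, ih]; rfl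

theorem map_finRange_get {X G : Type} (f : X → G) (a : List X) :
    (List.finRange a.length).map (fun i => f (a.get i)) = a.map f := by
  apply List.ext_getElem
  · simp
  · intro i h1 h2
    simp

theorem ssql_le_squares (w : FreeGroup α) (hw1 : w ≠ 1) (a : List (FreeGroup α))
    (ha : (a.map (fun x => x ^ 2)).prod = w) : ssql w ≤ (((a.length : ℝ) - 1 : ℝ) : EReal) := by
  classical
  -- discard trivial factors
  obtain ⟨a', hprod, hlen, hn1⟩ : ∃ a' : List (FreeGroup α),
      (a'.map (fun x => x ^ 2)).prod = w ∧ a'.length ≤ a.length ∧ ∀ x ∈ a', x ≠ 1 := by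
    refine ⟨a.filter (fun x => decide (x ≠ 1)), ?_, List.length_filter_le _ _, ?_⟩
    · rw [← ha]
      exact prod_filter (fun x => x ≠ 1) (fun x => x ^ 2) (fun x hx => by
        rw [not_not] at hx
        rw [hx, one_pow]) a
    · intro x hx
      rw [List.mem_filter] at hx
      simpa using hx.2
  let U : Fin a'.length → List (α × Bool) := fun i => (a'.get i).toWord
  have hU : ∀ i, U i ≠ [] := by
    intro i h
    have h1 : a'.get i = 1 := FreeGroup.toWord_eq_nil_iff.1 h
    exact hn1 _ (List.get_mem _ _) h1
  have hmkU : ∀ i, FreeGroup.mk (U i) = a'.get i := fun i => FreeGroup.mk_toWord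
  have hne : a'.length ≠ 0 := by
    intro h
    rw [List.length_eq_zero_iff] at h
    rw [h] at hprod
    exact hw1 hprod.symm
  let S : List (Fin a'.length × Bool) :=
    (List.finRange a'.length).flatMap (fun i => [(i, false), (i, true)])
  have hS : S.Nodup := by
    simp only [S]
    rw [List.nodup_flatMap]
    refine ⟨fun i _ => by simp, ?_⟩
    apply (List.nodup_finRange _).imp
    intro i j hij
    rw [Function.onFun, List.disjoint_left]
    intro t h1 h2
    simp only [List.mem_cons, List.not_mem_nil, or_false] at h1 h2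
    rcases h1 with rfl | rfl <;> rcases h2 with h2 | h2 <;> simp at h2 <;> exact hij h2
  have hS' : ∀ x, x ∈ S := by
    rintro ⟨i, c⟩
    simp only [S, List.mem_flatMap, List.mem_finRange, true_and]
    refine ⟨i, ?_⟩
    cases c <;> simp
  have hSne : S ≠ [] := by
    intro h
    have := hS' (⟨0, Nat.pos_of_ne_zero hne⟩, false)
    rw [h] at this
    simp at this
  have key := ssql_le_of_segments U hU false S hS hS' hSne w hw1 (by
    rw [← hprod, ← map_finRange_get (fun x => x ^ 2) a', prod_flatMap']
    congr 1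
    apply List.map_congr_left
    intro i _
    simp [hmkU, pow_two])
  refine key.trans ?_
  rw [EReal.coe_le_coe_iff, Fintype.card_fin]
  have : (a'.length : ℝ) ≤ a.length := by exact_mod_cast hlen
  linarith

theorem ssql_le_commutators (w : FreeGroup α) (hw1 : w ≠ 1)
    (a : List (FreeGroup α × FreeGroup α))
    (ha : (a.map (fun p => p.1 * p.2 * p.1⁻¹ * p.2⁻¹)).prod = w) :
    ssql w ≤ ((2 * (a.length : ℝ) - 1 : ℝ) : EReal) := by
  classical
  -- discard trivial factors
  obtain ⟨a', hprod, hlen, hn1⟩ : ∃ a' : List (FreeGroup α × FreeGroup α),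
      (a'.map (fun p => p.1 * p.2 * p.1⁻¹ * p.2⁻¹)).prod = w ∧ a'.length ≤ a.length ∧
        ∀ x ∈ a', x.1 ≠ 1 ∧ x.2 ≠ 1 := by
    refine ⟨a.filter (fun x => decide (x.1 ≠ 1 ∧ x.2 ≠ 1)), ?_, List.length_filter_le _ _, ?_⟩
    · rw [← ha]
      exact prod_filter (fun x => x.1 ≠ 1 ∧ x.2 ≠ 1) (fun p => p.1 * p.2 * p.1⁻¹ * p.2⁻¹)
        (fun x hx => by
          rw [not_and_or, not_not, not_not] at hx
          rcases hx with hx | hx
          · simp only [hx]
            group
          · simp only [hx]
            group) a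
    · intro x hx
      rw [List.mem_filter] at hx
      simpa using hx.2
  let U : Fin a'.length × Bool → List (α × Bool) := fun i =>
    if i.2 then (a'.get i.1).2.toWord else (a'.get i.1).1.toWord
  have hU : ∀ i, U i ≠ [] := by
    rintro ⟨i, c⟩ h
    have h0 := hn1 _ (List.get_mem a' i)
    cases c
    · exact h0.1 (FreeGroup.toWord_eq_nil_iff.1 h)
    · exact h0.2 (FreeGroup.toWord_eq_nil_iff.1 h)
  have hmkU : ∀ i, FreeGroup.mk (U (i, false)) = (a'.get i).1 := fun i => FreeGroup.mk_toWord
  have hmkU' : ∀ i, FreeGroup.mk (U (i, true)) = (a'.get i).2 := fun i => FreeGroup.mk_toWord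
  have hne : a'.length ≠ 0 := by
    intro h
    rw [List.length_eq_zero_iff] at h
    rw [h] at hprod
    exact hw1 hprod.symm
  let S : List ((Fin a'.length × Bool) × Bool) :=
    (List.finRange a'.length).flatMap (fun i =>
      [((i, false), false), ((i, true), false), ((i, false), true), ((i, true), true)])
  have hS : S.Nodup := by
    simp only [S]
    rw [List.nodup_flatMap]
    refine ⟨fun i _ => by simp, ?_⟩
    apply (List.nodup_finRange _).imp
    intro i j hij
    rw [Function.onFun, List.disjoint_left]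
    intro t h1 h2
    simp only [List.mem_cons, List.not_mem_nil, or_false] at h1 h2
    rcases h1 with rfl | rfl | rfl | rfl <;> rcases h2 with h2 | h2 | h2 | h2 <;>
      simp at h2 <;> exact hij h2
  have hS' : ∀ x, x ∈ S := by
    rintro ⟨⟨i, c⟩, d⟩
    simp only [S, List.mem_flatMap, List.mem_finRange, true_and]
    refine ⟨i, ?_⟩
    cases c <;> cases d <;> simp
  have hSne : S ≠ [] := by
    intro h
    have := hS' ((⟨0, Nat.pos_of_ne_zero hne⟩, false), false)
    rw [h] at this
    simp at this
  have key := ssql_le_of_segments U hU true S hS hS' hSne w hw1 (by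
    rw [← hprod, ← map_finRange_get (fun p => p.1 * p.2 * p.1⁻¹ * p.2⁻¹) a', prod_flatMap']
    congr 1
    apply List.map_congr_left
    intro i _
    show FreeGroup.mk (U (i, false)) * (FreeGroup.mk (U (i, true)) *
      ((FreeGroup.mk (U (i, false)))⁻¹ * ((FreeGroup.mk (U (i, true)))⁻¹ * 1))) = _
    rw [hmkU, hmkU', mul_one, mul_assoc, mul_assoc])
  refine key.trans ?_
  rw [EReal.coe_le_coe_iff, Fintype.card_prod, Fintype.card_fin, Fintype.card_bool]
  have : (a'.length : ℝ) ≤ a.length := by exact_mod_cast hlen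
  push_cast
  linarith

end assembly

end Helper691
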