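import Pool.Agent.Helper691_Ssql.Shorten

/-!
Flag systems attached to a finite cover of the rose and a cyclic word.
-/

namespace Helper691

open Equiv

universe u v w

section loc

variable {α : Type v} {I : Type w}

/-- Local involution of corners: `(j, true)` is the departing flag of the `j`-th letter and
`(j, false)` its arriving flag. -/
def t1L (nx : Perm I) : I × Bool → I × Bool
  | (j, true) => (nx.symm j, false)
  | (j, false) => (nx j, true)

/-- Label of a local flag. -/
def labL (le : I → α × Bool) : I × Bool → α × Bool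
  | (j, true) => le j
  | (j, false) => flipL (le j)

/-- The other end. -/
def fl (l : I × Bool) : I × Bool := (l.1, !l.2)

theorem fl_fl (l : I × Bool) : fl (fl l) = l := by simp [fl]

theorem t1L_t1L (nx : Perm I) (l : I × Bool) : t1L nx (t1L nx l) = l := by
  rcases l with ⟨j, _ | _⟩ <;> simp [t1L]

theorem t1L_ne (nx : Perm I) (l : I × Bool) : t1L nx l ≠ l := by
  rcases l with ⟨j, _ | _⟩ <;> simp [t1L]

theorem labL_fl (le : I → α × Bool) (l : I × Bool) : labL le (fl l) = flipL (labL le l) := by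
  rcases l with ⟨j, _ | _⟩ <;> simp [labL, fl, flipL]

end loc

section act

variable {α : Type v} {V : Type w}

/-- Action of a letter. -/
def act (σ : α → Perm V) : α × Bool → V → V
  | (a, true) => σ a
  | (a, false) => (σ a).symm

theorem act_flipL_act (σ : α → Perm V) (l : α × Bool) (x : V) : act σ (flipL l) (act σ l x) = x := by
  rcases l with ⟨j, _ | _⟩ <;> simp [act, flipL]

/-- Action of a word. -/
def actW (σ : α → Perm V) : List (α × Bool) → V → V
  | [], x => x
  | l :: L, x => actW σ L (act σ l x)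

/-- The homomorphism to permutations; words act by inverses. -/
def actHom (σ : α → Perm V) : FreeGroup α →* Perm V := FreeGroup.lift (fun a => (σ a)⁻¹)

theorem actHom_mk_singleton (σ : α → Perm V) (l : α × Bool) (x : V) :
    actHom σ (FreeGroup.mk [l]) (act σ l x) = x := by
  rcases l with ⟨j, _ | _⟩
  · have : (FreeGroup.mk [(j, false)]) = (FreeGroup.of j)⁻¹ := rfl
    rw [this, map_inv]
    simp [actHom, act]
  · have : (FreeGroup.mk [(j, true)]) = (FreeGroup.of j) := rfl
    rw [this]
    simp [actHom, act]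

theorem actHom_mk (σ : α → Perm V) (L : List (α × Bool)) : ∀ (x : V),
    actHom σ (FreeGroup.mk L) (actW σ L x) = x := by
  induction L with
  | nil =>
    intro x
    have : (FreeGroup.mk ([] : List (α × Bool))) = 1 := rfl
    rw [this, map_one]
    rfl
  | cons l L ih =>
    intro x
    have : (FreeGroup.mk (l :: L)) = FreeGroup.mk [l] * FreeGroup.mk L := by
      rw [FreeGroup.mul_mk]
      rfl
    rw [this, map_mul, Perm.mul_apply]
    simp only [actW]
    rw [ih, actHom_mk_singleton]

theorem actW_eq (σ : α → Perm V) {L L' : List (α × Bool)} (h : FreeGroup.mk L = FreeGroup.mk L')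
    (x : V) : actW σ L x = actW σ L' x := by
  have h1 := actHom_mk σ L x
  have h2 := actHom_mk σ L' x
  rw [← h] at h2
  exact (actHom σ (FreeGroup.mk L)).injective (h1.trans h2.symm)

end act

variable {α : Type v} {I : Type w} {V : Type u}

/-- The flag system of a cover `σ` of the rose and a cyclic word `le`. -/
def sysOf (nx : Perm I) (le : I → α × Bool) (σ : α → Perm V) : Sys (V × (I × Bool)) α V where
  t0 := fun x => (act σ (labL le x.2) x.1, fl x.2)
  t1 := fun x => (x.1, t1L nx x.2)
  lab := fun x => labL le x.2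
  vtx := fun x => x.1
  i0 := by
    intro x
    simp only [labL_fl, act_flipL_act, fl_fl]
  i1 := by
    intro x
    simp only [t1L_t1L]
  f1 := by
    intro x h
    exact t1L_ne nx x.2 (congrArg Prod.snd h)
  lab0 := by
    intro x
    exact labL_fl le x.2
  vtx1 := fun x => rfl
  vtx0 := by
    intro x y h1 h2
    simp only at h1 h2 ⊢
    rw [h1, h2]

/-- Walks move the vertex by the action of the label. -/
theorem walk_vtx (nx : Perm I) (le : I → α × Bool) (σ : α → Perm V)
    (t2 : V × (I × Bool) → V × (I × Bool)) (h2 : ∀ x, (t2 x).1 = x.1) :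
    ∀ (xs : List (V × (I × Bool))) (a b : V × (I × Bool)),
      WalkR (Cl (sysOf nx le σ).t1 t2) (sysOf nx le σ).t0 a xs b →
      b.1 = actW σ (xs.map (sysOf nx le σ).lab) a.1
  | [], a, b, h => by
    have := Cl.inv (t1 := (sysOf nx le σ).t1) (t2 := t2) (fun x : V × (I × Bool) => x.1)
      (fun x => rfl) h2 h
    exact this.symm
  | x :: xs, a, b, h => by
    have h3 : a.1 = x.1 := Cl.inv (t1 := (sysOf nx le σ).t1) (t2 := t2)
      (fun x : V × (I × Bool) => x.1) (fun x => rfl) h2 h.1
    have h4 := walk_vtx nx le σ t2 h2 xs _ b h.2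
    rw [h4]
    simp only [List.map_cons, actW]
    congr 1
    simp only [sysOf]
    rw [h3]

section cover

variable {Y : Type u}

/-- Product cover. -/
def prodσ (σ : α → Perm V) (τ : α → Perm Y) : α → Perm (V × Y) :=
  fun a => Equiv.prodCongr (σ a) (τ a)

theorem act_prodσ (σ : α → Perm V) (τ : α → Perm Y) (l : α × Bool) (x : V × Y) :
    act (prodσ σ τ) l x = (act σ l x.1, act τ l x.2) := by
  rcases l with ⟨j, _ | _⟩ <;> rfl

/-- Rearranging coordinates. -/
def shuf : (V × Y) × (I × Bool) ≃ (V × (I × Bool)) × Y where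
  toFun := fun x => ((x.1.1, x.2), x.1.2)
  invFun := fun x => ((x.1.1, x.2), x.1.2)
  left_inv := fun _ => rfl
  right_inv := fun _ => rfl

/-- Lifted matching. -/
def liftT2 (Y : Type u) (t2 : Perm (V × (I × Bool))) : Perm ((V × Y) × (I × Bool)) :=
  (shuf.symm).permCongr (Equiv.prodCongr t2 (Equiv.refl Y))

theorem liftT2_apply (t2 : Perm (V × (I × Bool))) (x : (V × Y) × (I × Bool)) :
    liftT2 Y t2 x = (((t2 (x.1.1, x.2)).1, x.1.2), (t2 (x.1.1, x.2)).2) := rfl

theorem liftT2_adm (nx : Perm I) (le : I → α × Bool) (σ : α → Perm V) (τ : α → Perm Y)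
    {t2 : Perm (V × (I × Bool))} (h : Adm (sysOf nx le σ) t2) :
    Adm (sysOf nx le (prodσ σ τ)) (liftT2 Y t2) where
  i2 := by
    intro x
    rw [liftT2_apply, liftT2_apply]
    simp only [Prod.mk.eta, h.i2]
  f2 := by
    intro x hx
    rw [liftT2_apply] at hx
    apply h.f2 (x.1.1, x.2)
    have h1 := congrArg (fun x => x.1.1) hx
    have h2 := congrArg (fun x => x.2) hx
    exact Prod.ext h1 h2
  comm := by
    rintro ⟨⟨u, y⟩, l⟩
    have h1 := h.comm (u, l)
    have h2 := h.lab2 (u, l)
    simp only [sysOf] at h1 h2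
    rw [liftT2_apply, liftT2_apply]
    simp only [sysOf, act_prodσ]
    rw [h1, h2]
  lab2 := by
    rintro ⟨⟨u, y⟩, l⟩
    exact h.lab2 (u, l)
  vtx2 := by
    rintro ⟨⟨u, y⟩, l⟩
    have := h.vtx2 (u, l)
    simp only [sysOf, liftT2_apply] at this ⊢
    rw [this]

theorem liftT2_cl (nx : Perm I) (le : I → α × Bool) (σ : α → Perm V) (τ : α → Perm Y)
    (t2 : Perm (V × (I × Bool))) (x y : (V × Y) × (I × Bool)) :
    Cl (sysOf nx le (prodσ σ τ)).t1 (liftT2 Y t2) x y ↔
      Cl (sysOf nx le σ).t1 t2 (shuf x).1 (shuf y).1 ∧ x.1.2 = y.1.2 := by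
  constructor
  · intro h
    constructor
    · exact Cl.le_setoid (Setoid.comap (fun x => (shuf x).1) (Cl (sysOf nx le σ).t1 t2))
        (fun x => Cl.t1 _ _ _) (fun x => Cl.t2 _ _ _) h
    · exact Cl.inv (t1 := (sysOf nx le (prodσ σ τ)).t1) (t2 := liftT2 Y t2)
        (fun x : (V × Y) × (I × Bool) => x.1.2) (fun x => rfl) (fun x => rfl) h
  · rintro ⟨h1, h2⟩
    have key : ∀ (p q : V × (I × Bool)), Cl (sysOf nx le σ).t1 t2 p q → ∀ h : Y,
        Cl (sysOf nx le (prodσ σ τ)).t1 (liftT2 Y t2) (shuf.symm (p, h)) (shuf.symm (q, h)) := by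
      intro p q hpq h
      exact Cl.le_setoid (Setoid.comap (fun x => shuf.symm (x, h))
        (Cl (sysOf nx le (prodσ σ τ)).t1 (liftT2 Y t2)))
        (fun x => Cl.t1 _ _ _) (fun x => Cl.t2 _ _ (shuf.symm (x, h))) hpq
    have h3 := key _ _ h1 x.1.2
    have h4 : shuf.symm ((shuf y).1, x.1.2) = y := by
      rw [h2]
      rfl
    rw [h4] at h3
    exact h3

theorem liftT2_ncl [Finite V] [Finite I] [Finite Y] (nx : Perm I) (le : I → α × Bool)
    (σ : α → Perm V) (τ : α → Perm Y) (t2 : Perm (V × (I × Bool))) :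
    ncl (sysOf nx le (prodσ σ τ)).t1 (liftT2 Y t2) =
      ncl (sysOf nx le σ).t1 t2 * Nat.card Y := by
  let f : (V × Y) × (I × Bool) → Quotient (Cl (sysOf nx le σ).t1 t2) × Y :=
    fun x => (Quotient.mk _ (shuf x).1, x.1.2)
  have hf : Function.Surjective f := by
    rintro ⟨q, y⟩
    induction q using Quotient.inductionOn with
    | h a => exact ⟨shuf.symm (a, y), rfl⟩
  have hk : Cl (sysOf nx le (prodσ σ τ)).t1 (liftT2 Y t2) = Setoid.ker f := by
    ext x y
    rw [liftT2_cl, Setoid.ker_def]
    constructor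
    · rintro ⟨h1, h2⟩
      exact Prod.ext (Quotient.sound h1) h2
    · intro h
      have h5 : f x = f y := h
      exact ⟨Quotient.exact (congrArg Prod.fst h5), (congrArg Prod.snd h5 : _)⟩
  unfold ncl
  rw [hk, Nat.card_congr (Setoid.quotientKerEquivOfSurjective f hf), Nat.card_prod]

end cover

end Helper691
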