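import Pool.Agent.Helper691_Ssql.Config

/-!
Lifting a reduced closed trivially labelled walk to a finite cover in which the shortening lemma
applies.
-/

namespace Helper691

open Equiv

variable {α : Type} {I : Type} {V : Type}

/-- Any finite subset of the free group carries permutations extending right multiplication by the
generators. -/
theorem cover_action (Y : Finset (FreeGroup α)) : ∃ τ : α → Perm Y, ∀ (l : α × Bool) (h h' : Y),
    h'.1 = h.1 * FreeGroup.mk [l] → act τ l h = h' := by
  classical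
  have key : ∀ a : α, ∃ s : Perm Y, ∀ h h' : Y, h'.1 = h.1 * FreeGroup.of a → s h = h' := by
    intro a
    let e : {h : Y // h.1 * FreeGroup.of a ∈ Y} ≃ {h : Y // h.1 * (FreeGroup.of a)⁻¹ ∈ Y} :=
      { toFun := fun h => ⟨⟨h.1.1 * FreeGroup.of a, h.2⟩, by simp⟩
        invFun := fun h => ⟨⟨h.1.1 * (FreeGroup.of a)⁻¹, h.2⟩, by simp⟩
        left_inv := fun h => by simp
        right_inv := fun h => by simp }
    refine ⟨e.extendSubtype, fun h h' hh => ?_⟩
    have hm : h.1 * FreeGroup.of a ∈ Y := by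
      rw [← hh]
      exact h'.2
    rw [Equiv.extendSubtype_apply_of_mem e h hm]
    apply Subtype.ext
    exact hh.symm
  choose τ hτ using key
  refine ⟨τ, ?_⟩
  rintro ⟨a, _ | _⟩ h h' hh
  · have h1 : FreeGroup.mk [(a, false)] = (FreeGroup.of a)⁻¹ := rfl
    rw [h1] at hh
    have h2 : h.1 = h'.1 * FreeGroup.of a := by
      rw [hh]
      simp
    have h3 := hτ a h' h h2
    simp only [act]
    rw [← h3]
    simp
  · have h1 : FreeGroup.mk [(a, true)] = (FreeGroup.of a) := rfl
    rw [h1] at hh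
    exact hτ a h h' hh

/-- Flags of a walk together with the labels of the initial segments. -/
def gl (le : I → α × Bool) : FreeGroup α → List (V × (I × Bool)) →
    List ((V × (I × Bool)) × FreeGroup α)
  | _, [] => []
  | g, x :: xs => (x, g) :: gl le (g * FreeGroup.mk [labL le x.2]) xs

theorem mem_gl (le : I → α × Bool) : ∀ (xs : List (V × (I × Bool))) (g : FreeGroup α)
    (X : (V × (I × Bool)) × FreeGroup α), X ∈ gl le g xs →
    ∃ zs ws, xs = zs ++ X.1 :: ws ∧
      X.2 = g * FreeGroup.mk (zs.map (fun x : V × (I × Bool) => labL le x.2))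
  | [], g, X, h => by simp [gl] at h
  | x :: xs, g, X, h => by
    simp only [gl, List.mem_cons] at h
    rcases h with rfl | h
    · refine ⟨[], xs, rfl, ?_⟩
      have : FreeGroup.mk ([] : List (α × Bool)) = 1 := rfl
      simp [this]
    · obtain ⟨zs, ws, h1, h2⟩ := mem_gl le xs _ X h
      refine ⟨x :: zs, ws, by rw [h1]; rfl, ?_⟩
      rw [h2, List.map_cons, mul_assoc, FreeGroup.mul_mk]
      rfl

theorem mk_cons (l : α × Bool) (L : List (α × Bool)) :
    FreeGroup.mk (l :: L) = FreeGroup.mk [l] * FreeGroup.mk L := by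
  rw [FreeGroup.mul_mk]
  rfl

theorem gl_pairwise_or (le : I → α × Bool) (R : V × (I × Bool) → V × (I × Bool) → Prop) :
    ∀ (xs : List (V × (I × Bool))) (g : FreeGroup α),
      (gl le g xs).Pairwise (fun X Z => ¬ (R X.1 Z.1 ∧ X.2 = Z.2)) ∨
      ∃ ys x zs y ws, xs = ys ++ x :: (zs ++ y :: ws) ∧ R x y ∧
        FreeGroup.mk ((x :: zs).map (fun x : V × (I × Bool) => labL le x.2)) = 1
  | [], g => Or.inl (by simp [gl])
  | x :: xs, g => by
    rcases gl_pairwise_or le R xs (g * FreeGroup.mk [labL le x.2]) with h | h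
    · by_cases hx : ∀ Z ∈ gl le (g * FreeGroup.mk [labL le x.2]) xs, ¬ (R x Z.1 ∧ g = Z.2)
      · left
        simp only [gl, List.pairwise_cons]
        exact ⟨hx, h⟩
      · right
        push Not at hx
        obtain ⟨Z, hZ, h1, h2⟩ := hx
        obtain ⟨zs, ws, h3, h4⟩ := mem_gl le xs _ Z hZ
        refine ⟨[], x, zs, Z.1, ws, ?_, h1, ?_⟩
        · rw [h3]
          rfl
        · rw [List.map_cons, mk_cons]
          rw [← h2, mul_assoc] at h4
          exact (mul_eq_left.1 h4.symm)
    · right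
      obtain ⟨ys, x', zs, y, ws, h1, h2, h3⟩ := h
      exact ⟨x :: ys, x', zs, y, ws, by rw [h1]; rfl, h2, h3⟩

section lift

variable {Y : Finset (FreeGroup α)} {τ : α → Perm Y}
  (hτ : ∀ (l : α × Bool) (h h' : Y), h'.1 = h.1 * FreeGroup.mk [l] → act τ l h = h')
  (r : FreeGroup α → Y) (hr : ∀ g, g ∈ Y → (r g).1 = g)
  (nx : Perm I) (le : I → α × Bool) (σ : α → Perm V)

include hτ hr in
theorem t0_lift (x : V × (I × Bool)) (g : FreeGroup α) (hg : g ∈ Y)
    (hg' : g * FreeGroup.mk [labL le x.2] ∈ Y) :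
    (sysOf nx le (prodσ σ τ)).t0 (shuf.symm (x, r g)) =
      shuf.symm ((sysOf nx le σ).t0 x, r (g * FreeGroup.mk [labL le x.2])) := by
  have h1 : act τ (labL le x.2) (r g) = r (g * FreeGroup.mk [labL le x.2]) := by
    apply hτ
    rw [hr _ hg, hr _ hg']
  simp only [sysOf, shuf, act_prodσ]
  simp only [Equiv.coe_fn_symm_mk]
  rw [h1]

include hτ hr in
theorem walk_lift (t2 : Perm (V × (I × Bool))) : ∀ (xs : List (V × (I × Bool)))
    (g : FreeGroup α) (a b : V × (I × Bool)),
    (∀ zs ws, xs = zs ++ ws →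
      g * FreeGroup.mk (zs.map (fun x : V × (I × Bool) => labL le x.2)) ∈ Y) →
    WalkR (Cl (sysOf nx le σ).t1 t2) (sysOf nx le σ).t0 a xs b →
    WalkR (Cl (sysOf nx le (prodσ σ τ)).t1 (liftT2 Y t2)) (sysOf nx le (prodσ σ τ)).t0
      (shuf.symm (a, r g)) ((gl le g xs).map (fun X => shuf.symm (X.1, r X.2)))
      (shuf.symm (b, r (g * FreeGroup.mk (xs.map (fun x : V × (I × Bool) => labL le x.2)))))
  | [], g, a, b, hY, h => by
    have h1 : FreeGroup.mk ([] : List (α × Bool)) = 1 := rfl
    simp only [gl, List.map_nil, WalkR]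
    rw [liftT2_cl, h1, mul_one]
    exact ⟨h, rfl⟩
  | x :: xs, g, a, b, hY, h => by
    have h1 : FreeGroup.mk ([] : List (α × Bool)) = 1 := rfl
    have hg : g ∈ Y := by
      have := hY [] (x :: xs) rfl
      simpa [h1] using this
    have hg' : g * FreeGroup.mk [labL le x.2] ∈ Y := hY [x] xs rfl
    simp only [gl, List.map_cons, WalkR]
    refine ⟨?_, ?_⟩
    · rw [liftT2_cl]
      exact ⟨h.1, rfl⟩
    · rw [t0_lift hτ r hr nx le σ x g hg hg',
        mk_cons (labL le x.2) (xs.map (fun x : V × (I × Bool) => labL le x.2)), ← mul_assoc]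
      apply walk_lift t2 xs _ _ b _ h.2
      intro zs ws hz
      have := hY (x :: zs) ws (by rw [hz]; rfl)
      rw [List.map_cons, mk_cons, ← mul_assoc] at this
      exact this

include hτ hr in
theorem good_lift (t2 : Perm (V × (I × Bool))) : ∀ (xs : List (V × (I × Bool)))
    (g : FreeGroup α) (a b : V × (I × Bool)),
    (∀ zs ws, xs = zs ++ ws →
      g * FreeGroup.mk (zs.map (fun x : V × (I × Bool) => labL le x.2)) ∈ Y) →
    WalkR (Cl (sysOf nx le σ).t1 t2) (sysOf nx le σ).t0 a xs b →
    xs.IsChain (fun x y => y ≠ (sysOf nx le σ).t0 x ∧ y ≠ t2 ((sysOf nx le σ).t0 x)) →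
    (gl le g xs).Pairwise (fun X Z => ¬ (Cl (sysOf nx le σ).t1 t2 X.1 Z.1 ∧ X.2 = Z.2)) →
    ((gl le g xs).map (fun X => (shuf.symm (X.1, r X.2) : (V × Y) × (I × Bool)))).Pairwise
      (Good (sysOf nx le (prodσ σ τ)) (liftT2 Y t2))
  | [], g, a, b, _, _, _, _ => by simp [gl]
  | x :: xs, g, a, b, hY, h, hch, hpw => by
    have h1 : FreeGroup.mk ([] : List (α × Bool)) = 1 := rfl
    have hg : g ∈ Y := by
      have := hY [] (x :: xs) rfl
      simpa [h1] using this
    have hg' : g * FreeGroup.mk [labL le x.2] ∈ Y := hY [x] xs rfl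
    have hY' : ∀ zs ws, xs = zs ++ ws → g * FreeGroup.mk [labL le x.2] *
        FreeGroup.mk (zs.map (fun x : V × (I × Bool) => labL le x.2)) ∈ Y := by
      intro zs ws hz
      have := hY (x :: zs) ws (by rw [hz]; rfl)
      rw [List.map_cons, mk_cons, ← mul_assoc] at this
      exact this
    have ht0 := t0_lift hτ r hr nx le σ x g hg hg'
    simp only [gl, List.pairwise_cons] at hpw
    have hch' := hch
    rw [List.isChain_cons] at hch
    simp only [gl, List.map_cons, List.pairwise_cons]
    refine ⟨?_, good_lift t2 xs _ _ b hY' h.2 hch.2 hpw.2⟩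
    intro Z' hZ'
    rw [List.mem_map] at hZ'
    obtain ⟨Z, hZ, rfl⟩ := hZ'
    obtain ⟨zs, ws, hz1, hz2⟩ := mem_gl le xs _ Z hZ
    have hZY : Z.2 ∈ Y := by
      rw [hz2]
      exact hY' zs (Z.1 :: ws) hz1
    -- the flag `Z.1` is neither `t0 x` nor `t2 (t0 x)` when the heights match
    have key : ∀ q : V × (I × Bool), (q = (sysOf nx le σ).t0 x ∨ q = t2 ((sysOf nx le σ).t0 x)) →
        ¬ (Z.1 = q ∧ Z.2 = g * FreeGroup.mk [labL le x.2]) := by
      rintro q hq ⟨e1, e2⟩
      rcases xs with _ | ⟨x', xs⟩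
      · simp [gl] at hZ
      · have hq2 : Cl (sysOf nx le σ).t1 t2 ((sysOf nx le σ).t0 x) q := by
          rcases hq with rfl | rfl
          · exact (Cl _ _).refl _
          · exact Cl.t2 _ _ _
        simp only [gl, List.mem_cons, List.pairwise_cons] at hZ hpw
        rcases hZ with hZ | hZ
        · have h5 := (List.isChain_cons_cons.1 hch').1
          have h6 : Z.1 = x' := by rw [hZ]
          rcases hq with hq | hq
          · exact h5.1 (by rw [← h6, e1, hq])
          · exact h5.2 (by rw [← h6, e1, hq])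
        · apply hpw.2.1 Z hZ
          refine ⟨?_, e2.symm⟩
          rw [e1]
          exact (Cl _ _).trans ((Cl _ _).symm h.2.1) hq2
    have inj : ∀ g1 g2, g1 ∈ Y → g2 ∈ Y → r g1 = r g2 → g1 = g2 := by
      intro g1 g2 k1 k2 k
      rw [← hr g1 k1, ← hr g2 k2, k]
    refine ⟨?_, ?_, ?_⟩
    · rw [liftT2_cl]
      rintro ⟨k1, k2⟩
      exact hpw.1 Z hZ ⟨k1, inj _ _ hg hZY k2⟩
    · rw [ht0]
      intro k
      have k1 := shuf.symm.injective k
      have k2 := congrArg Prod.fst k1
      have k3 := congrArg Prod.snd k1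
      exact key _ (Or.inl rfl) ⟨k2, inj _ _ hZY hg' k3⟩
    · rw [ht0]
      intro k
      have k1 := shuf.symm.injective (k.trans (b := _) (c :=
        shuf.symm (t2 ((sysOf nx le σ).t0 x), r (g * FreeGroup.mk [labL le x.2]))) rfl)
      have k2 := congrArg Prod.fst k1
      have k3 := congrArg Prod.snd k1
      exact key _ (Or.inr rfl) ⟨k2, inj _ _ hZY hg' k3⟩

end lift

/-- Optimality: the number of classes per vertex is as large as possible. -/
def Optimal (nx : Perm I) (le : I → α × Bool) (σ : α → Perm V) (t2 : Perm (V × (I × Bool))) :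
    Prop :=
  ∀ (W : Type) [Finite W] [Nonempty W] (σ' : α → Perm W) (t2' : Perm (W × (I × Bool))),
    Adm (sysOf nx le σ') t2' →
    ncl (sysOf nx le σ').t1 t2' * Nat.card V ≤ ncl (sysOf nx le σ).t1 t2 * Nat.card W

/-- In an optimal configuration no nonempty reduced closed walk has trivial label. -/
theorem optimal_injective [Finite V] [Nonempty V] [Finite I] (nx : Perm I) (le : I → α × Bool)
    (σ : α → Perm V) (t2 : Perm (V × (I × Bool))) (hadm : Adm (sysOf nx le σ) t2)
    (hopt : Optimal nx le σ t2) (n : ℕ) : ∀ (xs : List (V × (I × Bool))) (a : V × (I × Bool)),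
    xs.length ≤ n → xs ≠ [] →
    WalkR (Cl (sysOf nx le σ).t1 t2) (sysOf nx le σ).t0 a xs a →
    xs.IsChain (fun x y => y ≠ (sysOf nx le σ).t0 x ∧ y ≠ t2 ((sysOf nx le σ).t0 x)) →
    FreeGroup.mk (xs.map (fun x : V × (I × Bool) => labL le x.2)) = 1 → False := by
  induction n with
  | zero =>
    intro xs a h0 h1
    exact absurd (List.length_eq_zero_iff.1 (Nat.le_zero.1 h0)) h1
  | succ n ih =>
    intro xs a hlen hne hw hch hmk
    rcases gl_pairwise_or le (Cl (sysOf nx le σ).t1 t2) xs 1 with hpw | hdec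
    · -- lift to a cover
      classical
      let Y : Finset (FreeGroup α) := (xs.inits.map (fun zs => FreeGroup.mk
        (zs.map (fun x : V × (I × Bool) => labL le x.2)))).toFinset
      have hY : ∀ zs ws, xs = zs ++ ws →
          (1 : FreeGroup α) * FreeGroup.mk (zs.map (fun x : V × (I × Bool) => labL le x.2)) ∈ Y := by
        intro zs ws h
        simp only [one_mul, Y, List.mem_toFinset, List.mem_map, List.mem_inits]
        exact ⟨zs, ⟨ws, h.symm⟩, rfl⟩
      have h1Y : (1 : FreeGroup α) ∈ Y := by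
        have := hY [] xs rfl
        have h1 : FreeGroup.mk ([] : List (α × Bool)) = 1 := rfl
        simpa [h1] using this
      obtain ⟨τ, hτ⟩ := cover_action Y
      let r : FreeGroup α → Y := fun g => if h : g ∈ Y then ⟨g, h⟩ else ⟨1, h1Y⟩
      have hr : ∀ g, g ∈ Y → (r g).1 = g := by
        intro g hg
        simp only [r, dif_pos hg]
      have hw' := walk_lift hτ r hr nx le σ t2 xs 1 a a hY hw
      have hg' := good_lift hτ r hr nx le σ t2 xs 1 a a hY hw hch hpw
      rw [hmk, one_mul] at hw'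
      have hadm' := liftT2_adm nx le σ τ hadm
      have : Nonempty (V × Y) := ⟨(Classical.arbitrary V, ⟨1, h1Y⟩)⟩
      have hV : 0 < Nat.card V := Nat.card_pos
      have hmap : ((gl le 1 xs).map (fun X => (shuf.symm (X.1, r X.2) : (V × Y) × (I × Bool)))).map
          (sysOf nx le (prodσ σ τ)).lab = xs.map (fun x : V × (I × Bool) => labL le x.2) := by
        have : ∀ (xs : List (V × (I × Bool))) (g : FreeGroup α), ((gl le g xs).map
            (fun X => (shuf.symm (X.1, r X.2) : (V × Y) × (I × Bool)))).map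
            (sysOf nx le (prodσ σ τ)).lab = xs.map (fun x : V × (I × Bool) => labL le x.2) := by
          intro xs
          induction xs with
          | nil => intro g; rfl
          | cons x xs ih2 =>
            intro g
            simp only [gl, List.map_cons]
            rw [ih2]
            rfl
        exact this xs 1
      refine shorten (sysOf nx le (prodσ σ τ)) _ (liftT2 Y t2) hadm' ?_ _ _ le_rfl ?_ hw' hg' ?_
      · intro t2' h'
        have h2 := hopt (V × Y) (prodσ σ τ) t2' h'
        rw [liftT2_ncl, Nat.card_prod] at *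
        have h3 : ncl (sysOf nx le (prodσ σ τ)).t1 t2' * Nat.card V ≤
            (ncl (sysOf nx le σ).t1 t2 * Nat.card Y) * Nat.card V := by
          calc _ ≤ _ := h2
            _ = _ := by ring
        exact Nat.le_of_mul_le_mul_right h3 hV
      · intro h
        rcases xs with _ | ⟨x, xs⟩
        · exact hne rfl
        · simp [gl] at h
      · rw [hmap, hmk]
    · -- shorter closed subwalk
      obtain ⟨ys, x, zs, y, ws, rfl, hxy, hmk'⟩ := hdec
      have e1 : ys ++ x :: (zs ++ y :: ws) = ys ++ ((x :: zs) ++ (y :: ws)) := by simp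
      rw [e1] at hw hch hlen
      obtain ⟨c, _, hw1⟩ := (WalkR.append _ _ _ _ _ _).1 hw
      obtain ⟨d, hw2, hw3⟩ := (WalkR.append _ _ _ _ _ _).1 hw1
      have hcx : Cl (sysOf nx le σ).t1 t2 c x := hw2.1
      have hdy : Cl (sysOf nx le σ).t1 t2 d y := hw3.1
      have hw4 : WalkR (Cl (sysOf nx le σ).t1 t2) (sysOf nx le σ).t0 x (x :: zs) x := by
        have h5 : WalkR (Cl (sysOf nx le σ).t1 t2) (sysOf nx le σ).t0 c ((x :: zs) ++ []) x := by
          rw [WalkR.append]
          exact ⟨d, hw2, (Cl _ _).trans hdy ((Cl _ _).symm hxy)⟩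
        rw [List.append_nil] at h5
        exact WalkR.head _ _ _ ((Cl _ _).symm hcx) h5
      refine ih (x :: zs) x ?_ (by simp) hw4 ?_ hmk'
      · simp only [List.length_append, List.length_cons] at hlen ⊢
        omega
      · exact (hch.right_of_append).left_of_append

end Helper691
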