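import Mathlib

/-!
# Stable square length is at most square length minus one

We prove `ssql w ≤ sql* w - 1` for every element `w` of a free group.

## The model of surfaces

A compact surface with nonempty boundary on every component is a finite union of discs with bands
(one-handles) attached. We describe such a decomposition by its *flags*: a flag is one of the four
corners of a band, that is, one of the two sides of one of its two ends.

* `t0` moves along the side of the band to the other end of the band;
* `t2` crosses the end of the band to the other side;
* `t1` moves along the free boundary arc of the disc to the neighbouring band end.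

So discs are the classes of flags generated by `t1, t2`, bands are the classes generated by
`t0, t2` (four flags each), boundary circles are the classes generated by `t0, t1`, and
`χ = #discs - #bands`. The surface need not be connected or orientable. A map `f` from the surface
to a space with fundamental group `G`, which sends the discs to the base point, is given up to
homotopy by the label `lab x : G` of the path which enters a band at the flag `x` and leaves at the
other end.

The base points (the points of `ρ⁻¹(s₀)`) lie on free boundary arcs of discs: a flag `m ∈ mark`
stands for a base point on the arc from `t1 m` to `m`, the boundary circle being traversed (in the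
direction given by `ρ`) so that it leaves the arc through `m`. The next flag in the same role is
`t1 (t0 m)`.
-/

namespace Helper691

/-- An admissible diagram for `w`: a compact surface given as discs with bands attached (see the
header of this file), a map of it given by labels, and base points on its boundary such that every
boundary circle carries base points, is traversed in exactly one direction, and reads `w` from each
base point to the next one. -/
structure RibbonDiagram {G : Type} [Group G] (w : G) where
  /-- the corners of the bands -/
  Flag : Type
  [fin : Finite Flag]
  /-- along the side of the band -/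
  t0 : Flag → Flag
  /-- along the free arc of the disc -/
  t1 : Flag → Flag
  /-- across the end of the band -/
  t2 : Flag → Flag
  t0_t0 : ∀ x, t0 (t0 x) = x
  t1_t1 : ∀ x, t1 (t1 x) = x
  t2_t2 : ∀ x, t2 (t2 x) = x
  t0_ne : ∀ x, t0 x ≠ x
  t1_ne : ∀ x, t1 x ≠ x
  t2_ne : ∀ x, t2 x ≠ x
  t0_t2 : ∀ x, t0 (t2 x) = t2 (t0 x)
  t0_t2_ne : ∀ x, t0 (t2 x) ≠ x
  /-- the element of `G` read when crossing the band from this flag to the other end -/
  lab : Flag → G
  lab_t0 : ∀ x, lab (t0 x) = (lab x)⁻¹
  lab_t2 : ∀ x, lab (t2 x) = lab x
  /-- the base points -/
  mark : Finset Flag
  mark_nonempty : mark.Nonempty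
  /-- on every boundary circle exactly one of the two directions carries base points -/
  one_dir : ∀ x, Xor (∃ k, (fun y => t1 (t0 y))^[k] x ∈ mark)
    (∃ k, (fun y => t1 (t0 y))^[k] (t1 x) ∈ mark)
  /-- the boundary reads `w` between consecutive base points -/
  reads : ∀ m ∈ mark, ∃ k > 0, (fun y => t1 (t0 y))^[k] m ∈ mark ∧
    (∀ i, 0 < i → i < k → (fun y => t1 (t0 y))^[i] m ∉ mark) ∧
    ((List.range k).map (fun i => lab ((fun y => t1 (t0 y))^[i] m))).prod = w

namespace RibbonDiagram

variable {G : Type} [Group G] {w : G} (D : RibbonDiagram w)

/-- Two flags lie at the same disc. -/
def discs : Setoid D.Flag := Relation.EqvGen.setoid (fun x y => y = D.t1 x ∨ y = D.t2 x)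

/-- Two flags belong to the same band. -/
def bands : Setoid D.Flag := Relation.EqvGen.setoid (fun x y => y = D.t0 x ∨ y = D.t2 x)

/-- The Euler characteristic of the surface: number of discs minus number of bands. -/
noncomputable def eulerChar : ℤ :=
  (Nat.card (Quotient D.discs) : ℤ) - (Nat.card (Quotient D.bands) : ℤ)

/-- The degree of `ρ`: the number of base points. -/
def deg : ℕ := D.mark.card

/-- `D.IsWalk x es y`: a path in the surface from the disc of the flag `x` to the disc of the flag
`y`, crossing bands; `es` is the list of flags at which the bands are entered. -/
def IsWalk : D.Flag → List D.Flag → D.Flag → Prop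
  | x, [], y => D.discs x y
  | x, e :: es, y => D.discs x e ∧ IsWalk (D.t0 e) es y

/-- A walk without backtracking: no band is immediately followed by the same band in the opposite
direction. -/
def Reduced (es : List D.Flag) : Prop :=
  es.IsChain (fun e e' => e' ≠ D.t0 e ∧ e' ≠ D.t2 (D.t0 e))

/-- The image of a walk in `G`. -/
def label (es : List D.Flag) : G := (es.map D.lab).prod

/-- Efficient diagrams: (i) the map is injective on fundamental groups, that is, a nontrivial
reduced closed walk has nontrivial label; (ii) no path between distinct base points has trivial
label. -/
structure Efficient : Prop where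
  injective : ∀ x es, D.IsWalk x es x → D.Reduced es → es ≠ [] → D.label es ≠ 1
  separated : ∀ m₁ ∈ D.mark, ∀ m₂ ∈ D.mark, m₁ ≠ m₂ → ∀ es, D.IsWalk m₁ es m₂ → D.label es ≠ 1

end RibbonDiagram

open Classical in
/-- Stable square length: `-1` for the identity, and otherwise the infimum (`⊤` if there is no
diagram) of `-χ / deg` over the efficient diagrams. -/
noncomputable def ssql {G : Type} [Group G] (w : G) : EReal :=
  if w = 1 then -1 else
    sInf {x : EReal | ∃ D : RibbonDiagram w, D.Efficient ∧
      x = (((-(D.eulerChar : ℝ)) / (D.deg : ℝ) : ℝ) : EReal)}

/-- Square length: the least number of squares with product `w`. -/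
noncomputable def sql {G : Type} [Group G] (w : G) : ℕ∞ :=
  sInf {n | ∃ a : List G, (a.map (fun x => x ^ 2)).prod = w ∧ (a.length : ℕ∞) = n}

/-- Commutator length: the least number of commutators with product `w`. -/
noncomputable def cl {G : Type} [Group G] (w : G) : ℕ∞ :=
  sInf {n | ∃ a : List (G × G), (a.map (fun p => p.1 * p.2 * p.1⁻¹ * p.2⁻¹)).prod = w ∧
    (a.length : ℕ∞) = n}

/-- `sql* w = min (sql w, 2 cl w)`. -/
noncomputable def sqlStar {G : Type} [Group G] (w : G) : ℕ∞ := min (sql w) (2 * cl w)

end Helper691
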