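import Pool.Agent.Helper691_Ssql.Optimum

/-!
The initial configuration: a cyclic word obtained from a product of squares or commutators.
-/

namespace Helper691

open Equiv

section initial

variable {α β : Type} (U : β → List (α × Bool)) (s : Bool)

/-- Segment of tagged letters. -/
def seg (x : β × Bool) : List (((β × Bool) × ℕ) × (α × Bool)) :=
  if x.2 && s then ((U x.1).zipIdx.reverse).map (fun p => ((x, p.2), flipL p.1))
  else (U x.1).zipIdx.map (fun p => ((x, p.2), p.1))

/-- Corner before a tagged letter. -/
def kdep (t : ((β × Bool) × ℕ) × (α × Bool)) : Option (β × ℕ) :=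
  if t.1.1.2 && s then
    (if t.1.2 + 1 < (U t.1.1.1).length then some (t.1.1.1, t.1.2 + 1) else none)
  else (if 0 < t.1.2 then some (t.1.1.1, t.1.2) else none)

/-- Corner after a tagged letter. -/
def karr (t : ((β × Bool) × ℕ) × (α × Bool)) : Option (β × ℕ) :=
  if t.1.1.2 && s then (if 0 < t.1.2 then some (t.1.1.1, t.1.2) else none)
  else (if t.1.2 + 1 < (U t.1.1.1).length then some (t.1.1.1, t.1.2 + 1) else none)

/-- The partner of a tagged letter. -/
def partner (t : ((β × Bool) × ℕ) × (α × Bool)) : ((β × Bool) × ℕ) × (α × Bool) :=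
  (((t.1.1.1, !t.1.1.2), t.1.2), if s then flipL t.2 else t.2)

theorem partner_partner (t : ((β × Bool) × ℕ) × (α × Bool)) : partner s (partner s t) = t := by
  obtain ⟨⟨⟨b, c⟩, k⟩, l⟩ := t
  cases s <;> simp [partner, flipL_flipL]

/-- Chains of tagged letters. -/
structure Ch (l : List (((β × Bool) × ℕ) × (α × Bool))) : Prop where
  ne : l ≠ []
  head : ∀ t ∈ l.head?, kdep U s t = none
  last : ∀ t ∈ l.getLast?, karr U s t = none
  chain : l.IsChain (fun x y => karr U s x = kdep U s y)

variable {U s}

theorem Ch.append {l l' : List (((β × Bool) × ℕ) × (α × Bool))} (h : Ch U s l) (h' : Ch U s l') :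
    Ch U s (l ++ l') where
  ne := by
    intro h0
    exact h.ne (List.append_eq_nil_iff.1 h0).1
  head := by
    intro t ht
    have : (l ++ l').head? = l.head? := by
      rcases l with _ | ⟨x, l⟩
      · exact absurd rfl h.ne
      · rfl
    rw [this] at ht
    exact h.head t ht
  last := by
    intro t ht
    have : (l ++ l').getLast? = l'.getLast? := by
      rw [List.getLast?_append]
      rcases hl : l'.getLast? with _ | x
      · exact absurd (List.getLast?_eq_none_iff.1 hl) h'.ne
      · rfl
    rw [this] at ht
    exact h'.last t ht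
  chain := by
    rw [List.isChain_append]
    refine ⟨h.chain, h'.chain, ?_⟩
    intro x hx y hy
    rw [h.last x hx, h'.head y hy]

theorem seg_ch (hU : ∀ b, U b ≠ []) (x : β × Bool) : Ch U s (seg U s x) := by
  have hm : 0 < (U x.1).length := List.length_pos_iff.2 (hU x.1)
  by_cases hx : (x.2 && s) = true
  · have e : seg U s x = ((U x.1).zipIdx.reverse).map (fun p => ((x, p.2), flipL p.1)) := by
      rw [seg, if_pos hx]
    have hlen : (seg U s x).length = (U x.1).length := by
      rw [e]; simp
    have hget : ∀ i (h : i < (seg U s x).length), (seg U s x)[i].1 = (x, (U x.1).length - 1 - i) := by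
      intro i h
      simp only [e]
      simp
    refine ⟨?_, ?_, ?_, ?_⟩
    · intro h0
      rw [h0] at hlen
      simp at hlen
      omega
    · intro t ht
      rw [List.head?_eq_getElem?, Option.mem_def, List.getElem?_eq_some_iff] at ht
      obtain ⟨h1, h2⟩ := ht
      have h3 := hget 0 h1
      rw [h2] at h3
      rw [kdep, h3]
      simp only [hx, if_true]
      rw [if_neg]
      omega
    · intro t ht
      rw [List.getLast?_eq_getElem?, Option.mem_def, List.getElem?_eq_some_iff] at ht
      obtain ⟨h1, h2⟩ := ht
      have h3 := hget _ h1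
      rw [h2] at h3
      rw [karr, h3]
      simp only [hx, if_true]
      rw [if_neg]
      omega
    · rw [List.isChain_iff_getElem]
      intro i hi
      have h1 := hget i (by omega)
      have h2 := hget (i + 1) hi
      rw [kdep, karr, h1, h2]
      simp only [hx, if_true]
      rw [if_pos (by omega), if_pos (by omega)]
      congr 2
      omega
  · have e : seg U s x = (U x.1).zipIdx.map (fun p => ((x, p.2), p.1)) := by
      rw [seg, if_neg hx]
    have hlen : (seg U s x).length = (U x.1).length := by
      rw [e]; simp
    have hget : ∀ i (h : i < (seg U s x).length), (seg U s x)[i].1 = (x, i) := by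
      intro i h
      simp only [e]
      simp
    refine ⟨?_, ?_, ?_, ?_⟩
    · intro h0
      rw [h0] at hlen
      simp at hlen
      omega
    · intro t ht
      rw [List.head?_eq_getElem?, Option.mem_def, List.getElem?_eq_some_iff] at ht
      obtain ⟨h1, h2⟩ := ht
      have h3 := hget 0 h1
      rw [h2] at h3
      rw [kdep, h3]
      simp only [if_neg hx]
      simp
    · intro t ht
      rw [List.getLast?_eq_getElem?, Option.mem_def, List.getElem?_eq_some_iff] at ht
      obtain ⟨h1, h2⟩ := ht
      have h3 := hget _ h1
      rw [h2] at h3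
      rw [karr, h3]
      simp only [if_neg hx]
      rw [if_neg]
      omega
    · rw [List.isChain_iff_getElem]
      intro i hi
      have h1 := hget i (by omega)
      have h2 := hget (i + 1) hi
      rw [kdep, karr, h1, h2]
      simp only [if_neg hx]
      rw [if_pos (by omega), if_pos (by omega)]

theorem flatMap_ch (hU : ∀ b, U b ≠ []) : ∀ (S : List (β × Bool)), S ≠ [] →
    Ch U s (S.flatMap (seg U s))
  | [], h => absurd rfl h
  | [x], _ => by
    rw [List.flatMap_singleton]
    exact seg_ch hU x
  | x :: y :: S, _ => by
    rw [List.flatMap_cons]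
    exact (seg_ch hU x).append (flatMap_ch hU (y :: S) (by simp))

theorem mem_seg (x : β × Bool) (t : ((β × Bool) × ℕ) × (α × Bool)) :
    t ∈ seg U s x ↔ t.1.1 = x ∧
      (U t.1.1.1)[t.1.2]? = some (if t.1.1.2 && s then flipL t.2 else t.2) := by
  obtain ⟨⟨y, k⟩, l⟩ := t
  by_cases hx : (x.2 && s) = true
  · rw [seg, if_pos hx]
    simp only [List.mem_map, List.mem_reverse]
    constructor
    · rintro ⟨⟨l', k'⟩, h1, h2⟩
      rw [List.mem_zipIdx_iff_getElem?] at h1
      simp only [Prod.mk.injEq] at h2
      obtain ⟨⟨rfl, rfl⟩, rfl⟩ := h2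
      simp only at h1 ⊢
      refine ⟨trivial, ?_⟩
      rw [h1, if_pos hx, flipL_flipL]
    · rintro ⟨rfl, h1⟩
      try simp only at h1 hx
      refine ⟨(flipL l, k), ?_, ?_⟩
      · rw [List.mem_zipIdx_iff_getElem?]
        simp only
        rw [h1, if_pos hx]
      · simp [flipL_flipL]
  · rw [seg, if_neg hx]
    simp only [List.mem_map]
    constructor
    · rintro ⟨⟨l', k'⟩, h1, h2⟩
      rw [List.mem_zipIdx_iff_getElem?] at h1
      simp only [Prod.mk.injEq] at h2
      obtain ⟨⟨rfl, rfl⟩, rfl⟩ := h2
      simp only at h1 ⊢
      refine ⟨trivial, ?_⟩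
      rw [h1, if_neg hx]
    · rintro ⟨rfl, h1⟩
      try simp only at h1 hx
      refine ⟨(l, k), ?_, ?_⟩
      · rw [List.mem_zipIdx_iff_getElem?]
        simp only
        rw [h1, if_neg hx]
      · simp

theorem mem_flat {S : List (β × Bool)} (hS : ∀ x, x ∈ S) (t : ((β × Bool) × ℕ) × (α × Bool)) :
    t ∈ S.flatMap (seg U s) ↔
      (U t.1.1.1)[t.1.2]? = some (if t.1.1.2 && s then flipL t.2 else t.2) := by
  rw [List.mem_flatMap]
  constructor
  · rintro ⟨x, _, h⟩
    exact ((mem_seg x t).1 h).2
  · intro h
    exact ⟨t.1.1, hS _, (mem_seg _ t).2 ⟨rfl, h⟩⟩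

theorem partner_mem {S : List (β × Bool)} (hS : ∀ x, x ∈ S)
    (t : ((β × Bool) × ℕ) × (α × Bool)) (ht : t ∈ S.flatMap (seg U s)) :
    partner s t ∈ S.flatMap (seg U s) := by
  rw [mem_flat hS] at ht ⊢
  obtain ⟨⟨⟨b, c⟩, k⟩, l⟩ := t
  cases s <;> cases c <;> simp [partner, flipL_flipL] at ht ⊢ <;> exact ht

theorem nodup_flat {S : List (β × Bool)} (hS : S.Nodup) : (S.flatMap (seg U s)).Nodup := by
  rw [List.nodup_flatMap]
  constructor
  · intro x _
    by_cases hx : (x.2 && s) = true
    · rw [seg, if_pos hx]
      apply List.Nodup.of_map (fun t : ((β × Bool) × ℕ) × (α × Bool) => t.1.2)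
      rw [List.map_map]
      have : ((fun t : ((β × Bool) × ℕ) × (α × Bool) => t.1.2) ∘
          fun p : (α × Bool) × ℕ => ((x, p.2), flipL p.1)) = Prod.snd := rfl
      rw [this, List.map_reverse, List.zipIdx_map_snd, List.nodup_reverse]
      exact List.nodup_range'
    · rw [seg, if_neg hx]
      apply List.Nodup.of_map (fun t : ((β × Bool) × ℕ) × (α × Bool) => t.1.2)
      rw [List.map_map]
      have : ((fun t : ((β × Bool) × ℕ) × (α × Bool) => t.1.2) ∘
          fun p : (α × Bool) × ℕ => ((x, p.2), p.1)) = Prod.snd := rfl
      rw [this, List.zipIdx_map_snd]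
      exact List.nodup_range'
  · apply hS.imp
    intro x y hxy
    rw [Function.onFun, List.disjoint_left]
    intro t h1 h2
    rw [mem_seg] at h1 h2
    exact hxy (h1.1.symm.trans h2.1)

theorem seg_mk (x : β × Bool) : FreeGroup.mk ((seg U s x).map Prod.snd) =
    if x.2 && s then (FreeGroup.mk (U x.1))⁻¹ else FreeGroup.mk (U x.1) := by
  by_cases hx : (x.2 && s) = true
  · rw [seg, if_pos hx, if_pos hx, List.map_map]
    have : (Prod.snd ∘ fun p : (α × Bool) × ℕ => ((x, p.2), flipL p.1)) =
      (fun l : α × Bool => flipL l) ∘ Prod.fst := rfl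
    rw [this, List.map_reverse, ← List.map_map, List.zipIdx_map_fst, FreeGroup.inv_mk]
    rfl
  · rw [seg, if_neg hx, if_neg hx, List.map_map]
    have : (Prod.snd ∘ fun p : (α × Bool) × ℕ => ((x, p.2), p.1)) = Prod.fst := rfl
    rw [this, List.zipIdx_map_fst]

theorem flat_mk (S : List (β × Bool)) : FreeGroup.mk ((S.flatMap (seg U s)).map Prod.snd) =
    (S.map (fun x => if x.2 && s then (FreeGroup.mk (U x.1))⁻¹ else FreeGroup.mk (U x.1))).prod := by
  induction S with
  | nil => rfl
  | cons x S ih =>
    rw [List.flatMap_cons, List.map_append, ← FreeGroup.mul_mk, ih, seg_mk, List.map_cons,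
      List.prod_cons]

theorem length_seg (x : β × Bool) : (seg U s x).length = (U x.1).length := by
  by_cases hx : (x.2 && s) = true
  · rw [seg, if_pos hx]; simp
  · rw [seg, if_neg hx]; simp

theorem length_flat [Fintype β] [DecidableEq β] {S : List (β × Bool)} (hS : S.Nodup)
    (hS' : ∀ x, x ∈ S) : (S.flatMap (seg U s)).length = 2 * ∑ b, (U b).length := by
  rw [List.length_flatMap]
  have h1 : (S.map (fun x => (seg U s x).length)) = S.map (fun x => (U x.1).length) := by
    apply List.map_congr_left
    intro x _
    exact length_seg x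
  rw [h1, ← List.sum_toFinset _ hS]
  have h2 : S.toFinset = Finset.univ := by
    ext x
    simp [hS']
  rw [h2, Fintype.sum_prod_type]
  simp only [Finset.sum_const, Finset.mul_sum]
  simp

theorem finRotate_val (n : ℕ) (j : Fin n) : (finRotate n j).val = (j.val + 1) % n := by
  cases n with
  | zero => exact j.elim0
  | succ n => simp [Fin.val_add]

open Classical in
/-- The initial configuration. -/
theorem initial [Fintype β] (U : β → List (α × Bool)) (hU : ∀ b, U b ≠ [])
    (s : Bool) (S : List (β × Bool)) (hS : S.Nodup) (hS' : ∀ x, x ∈ S) (hne : S ≠ []) :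
    ∃ (n : ℕ) (_ : 0 < n) (le : Fin n → α × Bool) (t2 : Perm (Unit × (Fin n × Bool))),
      Adm (sysOf (finRotate n) le (fun _ => 1)) t2 ∧
      n + 2 ≤ 2 * ncl (sysOf (finRotate n) le (fun _ : α => (1 : Perm Unit))).t1 t2 +
        2 * Fintype.card β ∧
      FreeGroup.mk (List.ofFn le) = (S.map (fun x => if x.2 && s then (FreeGroup.mk (U x.1))⁻¹
        else FreeGroup.mk (U x.1))).prod := by
  set e := S.flatMap (seg U s) with he
  have hch : Ch U s e := flatMap_ch hU S hne
  have hnd : e.Nodup := nodup_flat hS
  have hpos : 0 < e.length := List.length_pos_iff.2 hch.ne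
  let E : Fin e.length ≃ {t // t ∈ e} := List.Nodup.getEquiv e hnd
  have hE : ∀ i, (E i).1 = e[i.val] := fun i => rfl
  let P : Perm {t // t ∈ e} :=
    { toFun := fun t => ⟨partner s t.1, partner_mem hS' _ t.2⟩
      invFun := fun t => ⟨partner s t.1, partner_mem hS' _ t.2⟩
      left_inv := fun t => Subtype.ext (partner_partner s t.1)
      right_inv := fun t => Subtype.ext (partner_partner s t.1) }
  let pi : Perm (Fin e.length) := (E.trans P).trans E.symm
  have hpi : ∀ i, (E (pi i)).1 = partner s (E i).1 := by
    intro i
    simp only [pi, Equiv.trans_apply, Equiv.apply_symm_apply]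
    rfl
  have hpi2 : ∀ i, pi (pi i) = i := by
    intro i
    apply E.injective
    apply Subtype.ext
    rw [hpi, hpi, partner_partner]
  have hpi3 : ∀ i, pi i ≠ i := by
    intro i h
    have h1 := hpi i
    rw [h] at h1
    have h2 := congrArg (fun t => t.1.1.2) h1
    simp [partner] at h2
  let le : Fin e.length → α × Bool := fun i => (E i).1.2
  have hle : ∀ i, le (pi i) = if s then flipL (le i) else le i := by
    intro i
    simp only [le]
    rw [hpi]
    rfl
  let τ : Perm (Fin e.length × Bool) :=
    { toFun := fun l => (pi l.1, xor l.2 s)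
      invFun := fun l => (pi l.1, xor l.2 s)
      left_inv := fun l => by simp [hpi2]
      right_inv := fun l => by simp [hpi2] }
  have hτ : ∀ l, τ l = (pi l.1, xor l.2 s) := fun l => rfl
  have hτlab : ∀ l, labL le (τ l) = labL le l := by
    rintro ⟨j, d⟩
    rw [hτ]
    cases s <;> cases d <;> simp [labL, hle, flipL_flipL]
  let T : Unit → LT le := fun _ => ⟨τ, fun l => by simp [hτ, hpi2], fun l h => by
    rw [hτ] at h
    exact hpi3 _ (congrArg Prod.fst h), hτlab⟩
  refine ⟨e.length, hpos, le, glob le T, ?_, ?_, ?_⟩
  · apply glob_adm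
    intro a v
    funext l
    simp only [innT, outT, T]
    have : fl (τ (fl l)) = τ l := by
      rw [hτ, hτ]
      simp [fl]
    rw [this]
  · -- counting classes
    have hncl : ncl (sysOf (finRotate e.length) le (fun _ : α => (1 : Perm Unit))).t1 (glob le T) =
        ncl (t1L (finRotate e.length)) τ := by
      have := ncl_fam (V := Unit) (finRotate e.length) (fun v => (T v).1)
      simp only [Finset.univ_unique, Finset.sum_singleton] at this
      exact this
    rw [hncl]
    let κ : Fin e.length × Bool → Option (β × ℕ) := fun l =>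
      if l.2 then kdep U s (E l.1).1 else karr U s (E l.1).1
    have hdep : ∀ j, kdep U s (E (finRotate e.length j)).1 = karr U s (E j).1 := by
      intro j
      rw [hE, hE]
      have h1 := finRotate_val e.length j
      rcases Nat.lt_or_ge (j.val + 1) e.length with h2 | h2
      · rw [Nat.mod_eq_of_lt h2] at h1
        have h3 := (List.isChain_iff_getElem.1 hch.chain) j.val h2
        rw [h3]
        congr 1
        simp only [h1]
      · have h3 : j.val + 1 = e.length := by omega
        rw [h3, Nat.mod_self] at h1
        have h4 : kdep U s e[0] = none := by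
          apply hch.head
          rw [List.head?_eq_getElem?]
          simp [hpos]
        have h5 : karr U s e[j.val] = none := by
          apply hch.last
          rw [List.getLast?_eq_getElem?, Option.mem_def, List.getElem?_eq_some_iff]
          refine ⟨by omega, ?_⟩
          congr 1
          omega
        rw [h5]
        simp only [h1]
        exact h4
    have hκ1 : ∀ l, κ (t1L (finRotate e.length) l) = κ l := by
      rintro ⟨j, _ | _⟩
      · simp only [κ, t1L, if_true]
        simp only [Bool.false_eq_true, if_false]
        exact hdep j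
      · simp only [κ, t1L, if_true]
        simp only [Bool.false_eq_true, if_false]
        have := hdep ((finRotate e.length).symm j)
        rw [Equiv.apply_symm_apply] at this
        exact this.symm
    have hκ2 : ∀ l, κ (τ l) = κ l := by
      rintro ⟨j, d⟩
      rw [hτ]
      simp only [κ]
      rw [hpi]
      obtain ⟨⟨⟨b, c⟩, k⟩, l⟩ := (E j).1
      cases s <;> cases d <;> cases c <;> simp [partner, kdep, karr]
    -- representatives
    have hrep : ∀ (b : β) (k : ℕ), k < (U b).length - 1 →
        ∃ l : Fin e.length × Bool, κ l = some (b, k + 1) := by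
      intro b k hk
      have hk1 : k + 1 < (U b).length := by omega
      have hm : (((b, false), k + 1), (U b)[k + 1]) ∈ e := by
        rw [he, mem_flat hS']
        simp [hk1]
      refine ⟨(E.symm ⟨_, hm⟩, true), ?_⟩
      simp only [κ, if_true, Equiv.apply_symm_apply]
      simp [kdep]
    have hnei : Nonempty (Fin e.length × Bool) := ⟨(⟨0, hpos⟩, true)⟩
    choose! rep hrep using hrep
    have h0 : κ (⟨0, hpos⟩, true) = none := by
      simp only [κ, if_true]
      rw [hE]
      apply hch.head
      rw [List.head?_eq_getElem?]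
      simp [hpos]
    let Q := Quotient (Cl (t1L (finRotate e.length)) τ)
    let G : Option (Σ b : β, Fin ((U b).length - 1)) → Q := fun o =>
      match o with
      | none => Quotient.mk _ (⟨0, hpos⟩, true)
      | some x => Quotient.mk _ (rep x.1 x.2.val)
    have hinv : ∀ l l', (Quotient.mk (Cl (t1L (finRotate e.length)) τ) l) =
        Quotient.mk _ l' → κ l = κ l' := by
      intro l l' h
      exact Cl.inv κ hκ1 hκ2 (Quotient.exact h)
    have hG : Function.Injective G := by
      intro o o' h
      rcases o with _ | ⟨b, k⟩ <;> rcases o' with _ | ⟨b', k'⟩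
      · rfl
      · have h1 := hinv _ _ h
        rw [h0, hrep b' k'.val k'.2] at h1
        exact absurd h1 (by simp)
      · have h1 := hinv _ _ h
        rw [h0, hrep b k.val k.2] at h1
        exact absurd h1 (by simp)
      · have h1 := hinv _ _ h
        rw [hrep b k.val k.2, hrep b' k'.val k'.2] at h1
        simp only [Option.some.injEq, Prod.mk.injEq, add_left_inj] at h1
        obtain ⟨h2, h3⟩ := h1
        subst h2
        have h4 : k = k' := Fin.ext h3
        rw [h4]
    have hcard := Nat.card_le_card_of_injective G hG
    have hc2 : Nat.card (Option (Σ b : β, Fin ((U b).length - 1))) =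
        ∑ b, ((U b).length - 1) + 1 := by
      rw [Nat.card_eq_fintype_card, Fintype.card_option, Fintype.card_sigma]
      simp
    rw [hc2] at hcard
    have hlen : e.length = 2 * ∑ b, (U b).length := length_flat hS hS'
    have hsum : ∑ b, (U b).length = ∑ b, ((U b).length - 1) + Fintype.card β := by
      rw [← Finset.card_univ, Finset.card_eq_sum_ones, ← Finset.sum_add_distrib]
      apply Finset.sum_congr rfl
      intro b _
      have := List.length_pos_iff.2 (hU b)
      omega
    have hQ : Nat.card Q = ncl (t1L (finRotate e.length)) τ := rfl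
    rw [hQ] at hcard
    omega
  · rw [← flat_mk, ← he]
    congr 1
    apply List.ext_getElem
    · simp
    · intro i h1 h2
      simp only [List.getElem_ofFn, List.getElem_map, le]
      rfl

end initial

end Helper691
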