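import Pool.Agent.Helper691_Ssql.Cover

/-!
Existence of an optimal configuration: a Dickson type argument on the count vectors of local
configurations.
-/

namespace Helper691

open Equiv

/-- A linear fractional functional attains its supremum on a nonempty family of nonzero vectors of
natural numbers closed under subtraction. -/
theorem exists_opt {ι : Type} [Finite ι] (X : Set (ι → ℕ)) (hX0 : ∃ n ∈ X, n ≠ 0)
    (hsub : ∀ m ∈ X, ∀ n ∈ X, m ≤ n → n - m ∈ X) (f g : (ι → ℕ) → ℕ)
    (fadd : ∀ m n, f (m + n) = f m + f n) (gadd : ∀ m n, g (m + n) = g m + g n)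
    (gpos : ∀ n, n ≠ 0 → 0 < g n) :
    ∃ m ∈ X, m ≠ 0 ∧ ∀ n ∈ X, f n * g m ≤ f m * g n := by
  classical
  let M : Set (ι → ℕ) := {n | n ∈ X ∧ n ≠ 0 ∧ ∀ m ∈ X, m ≠ 0 → m ≤ n → m = n}
  have hanti : IsAntichain (· ≤ ·) M := by
    intro a ha b hb hab hle
    exact hab (hb.2.2 a ha.1 ha.2.1 hle)
  have hfin : M.Finite := hanti.finite_of_partiallyWellOrderedOn (Set.isPWO_of_wellQuasiOrderedLE M)
  have hf0 : f 0 = 0 := by
    have := fadd 0 0
    simp at this
    exact this
  have glt : ∀ m n, m ∈ X → n ∈ X → m ≤ n → m ≠ n → m ≠ 0 → g m < g n ∧ g (n - m) < g n ∧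
      n = m + (n - m) := by
    intro m n _ _ hle hne hm0
    have e : n = m + (n - m) := by
      funext i
      have : m i ≤ n i := hle i
      simp only [Pi.add_apply, Pi.sub_apply]
      omega
    have h1 : n - m ≠ 0 := by
      intro h
      rw [h, add_zero] at e
      exact hne e.symm
    have h2 := gpos _ h1
    have h3 := gpos _ hm0
    have h4 : g n = g m + g (n - m) := by
      conv_lhs => rw [e]
      exact gadd _ _
    exact ⟨by omega, by omega, e⟩
  -- every nonzero element lies above a minimal one
  have hmin : ∀ k, ∀ n ∈ X, n ≠ 0 → g n ≤ k → M.Nonempty := by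
    intro k
    induction k with
    | zero =>
      intro n _ hn0 hk
      have := gpos n hn0
      omega
    | succ k ih =>
      intro n hn hn0 hk
      by_cases h : n ∈ M
      · exact ⟨n, h⟩
      · have : ∃ m ∈ X, m ≠ 0 ∧ m ≤ n ∧ m ≠ n := by
          by_contra hc
          push Not at hc
          exact h ⟨hn, hn0, hc⟩
        obtain ⟨m, hm, hm0, hle, hne⟩ := this
        have := glt m n hm hn hle hne hm0
        exact ih m hm hm0 (by omega)
  obtain ⟨n0, hn0, hn0'⟩ := hX0
  have hMne : M.Nonempty := hmin _ n0 hn0 hn0' le_rfl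
  obtain ⟨m, hmM, hmax⟩ := Set.exists_max_image M (fun n => (f n : ℚ) / g n) hfin hMne
  refine ⟨m, hmM.1, hmM.2.1, ?_⟩
  have hgm := gpos m hmM.2.1
  have main : ∀ k, ∀ n ∈ X, g n ≤ k → f n * g m ≤ f m * g n := by
    intro k
    induction k with
    | zero =>
      intro n _ hk
      have h0 : n = 0 := by
        by_contra h
        have := gpos n h
        omega
      rw [h0, hf0]
      simp
    | succ k ih =>
      intro n hn hk
      by_cases h0 : n = 0
      · rw [h0, hf0]
        simp
      by_cases h : n ∈ M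
      · have h1 := hmax n h
        have h2 := gpos n h0
        rw [div_le_div_iff₀ (by exact_mod_cast h2) (by exact_mod_cast hgm)] at h1
        exact_mod_cast h1
      · have : ∃ m' ∈ X, m' ≠ 0 ∧ m' ≤ n ∧ m' ≠ n := by
          by_contra hc
          push Not at hc
          exact h ⟨hn, h0, hc⟩
        obtain ⟨m', hm', hm0', hle, hne⟩ := this
        obtain ⟨l1, l2, l3⟩ := glt m' n hm' hn hle hne hm0'
        have i1 := ih m' hm' (by omega)
        have i2 := ih (n - m') (hsub m' hm' n hn hle) (by omega)
        have e1 : f n = f m' + f (n - m') := by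
          conv_lhs => rw [l3]
          exact fadd _ _
        have e2 : g n = g m' + g (n - m') := by
          conv_lhs => rw [l3]
          exact gadd _ _
        rw [e1, e2]
        nlinarith
  intro n hn
  exact main _ n hn le_rfl

section fam

variable {I : Type} {V : Type}

theorem ncl_fam [Finite V] [Finite I] (nx : Perm I) (τ : V → Perm (I × Bool)) [Fintype V] :
    ncl (fun x : V × (I × Bool) => (x.1, t1L nx x.2)) (fun x => (x.1, τ x.1 x.2)) =
      ∑ u, ncl (t1L nx) (τ u) := by
  let f : V × (I × Bool) → (Σ u, Quotient (Cl (t1L nx) (τ u))) :=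
    fun x => ⟨x.1, Quotient.mk _ x.2⟩
  have hf : Function.Surjective f := by
    rintro ⟨u, q⟩
    induction q using Quotient.inductionOn with
    | h a => exact ⟨(u, a), rfl⟩
  have hk : Cl (fun x : V × (I × Bool) => (x.1, t1L nx x.2)) (fun x => (x.1, τ x.1 x.2)) =
      Setoid.ker f := by
    ext x y
    rw [Setoid.ker_def]
    constructor
    · intro h
      refine Cl.inv f ?_ ?_ h
      · intro x
        exact congrArg (Sigma.mk x.1) (Quotient.sound ((Cl _ _).symm (Cl.t1 _ _ _)))
      · intro x
        exact congrArg (Sigma.mk x.1) (Quotient.sound ((Cl _ _).symm (Cl.t2 _ _ _)))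
    · rcases x with ⟨u, l⟩
      rcases y with ⟨u', l'⟩
      intro h
      have h1 : u = u' := congrArg Sigma.fst h
      subst h1
      have h2 : Quotient.mk (Cl (t1L nx) (τ u)) l = Quotient.mk (Cl (t1L nx) (τ u)) l' := by
        have := (Sigma.mk.inj_iff.1 h).2
        exact eq_of_heq this
      have h3 : Cl (t1L nx) (τ u) l l' := Quotient.exact h2
      exact Cl.le_setoid (Setoid.comap (fun l => (u, l))
        (Cl (fun x : V × (I × Bool) => (x.1, t1L nx x.2)) (fun x => (x.1, τ x.1 x.2))))
        (fun l => Cl.t1 _ _ (u, l)) (fun l => Cl.t2 _ _ (u, l)) h3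
  unfold ncl
  rw [hk, Nat.card_congr (Setoid.quotientKerEquivOfSurjective f hf), Nat.card_sigma]

end fam

section loctypes

variable {α : Type} {I : Type}

/-- Local types. -/
def LT (le : I → α × Bool) : Type :=
  {τ : Perm (I × Bool) // (∀ l, τ (τ l) = l) ∧ (∀ l, τ l ≠ l) ∧ ∀ l, labL le (τ l) = labL le l}

instance (le : I → α × Bool) [Finite I] : Finite (LT le) := by
  classical
  have := Fintype.ofFinite I
  unfold LT
  infer_instance

open Classical in
/-- Restriction to outgoing edge ends. -/
noncomputable def outT (le : I → α × Bool) (a : α) (τ : LT le) : I × Bool → Option (I × Bool) :=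
  fun l => if labL le l = (a, true) then some (τ.1 l) else none

open Classical in
/-- Restriction to incoming edge ends. -/
noncomputable def innT (le : I → α × Bool) (a : α) (τ : LT le) : I × Bool → Option (I × Bool) :=
  fun l => if labL le l = (a, true) then some (fl (τ.1 (fl l))) else none

variable {V : Type}

/-- The matching defined by a family of local types. -/
def glob (le : I → α × Bool) (τ : V → LT le) : Perm (V × (I × Bool)) :=
  Equiv.prodShear (Equiv.refl V) (fun v => (τ v).1)

theorem glob_apply (le : I → α × Bool) (τ : V → LT le) (x : V × (I × Bool)) :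
    glob le τ x = (x.1, (τ x.1).1 x.2) := rfl

theorem glob_adm (nx : Perm I) (le : I → α × Bool) (σ : α → Perm V) (τ : V → LT le)
    (hc : ∀ a v, innT le a (τ (σ a v)) = outT le a (τ v)) : Adm (sysOf nx le σ) (glob le τ) where
  i2 := by
    rintro ⟨v, l⟩
    simp only [glob_apply, (τ v).2.1]
  f2 := by
    rintro ⟨v, l⟩ h
    exact (τ v).2.2.1 l (congrArg Prod.snd h)
  lab2 := by
    rintro ⟨v, l⟩
    exact (τ v).2.2.2 l
  vtx2 := by
    rintro ⟨v, l⟩
    rfl
  comm := by
    rintro ⟨v, l⟩
    simp only [sysOf, glob_apply, (τ v).2.2.2]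
    refine Prod.ext rfl ?_
    simp only
    rcases hl : labL le l with ⟨a, _ | _⟩
    · -- incoming
      have hfl : labL le (fl l) = (a, true) := by
        rw [labL_fl, hl]
        rfl
      have h1 := congrFun (hc a ((σ a).symm v)) (fl l)
      simp only [innT, outT, if_pos hfl, Equiv.apply_symm_apply, fl_fl] at h1
      simp only [act]
      exact (Option.some.inj h1).symm
    · have h1 := congrFun (hc a v) l
      simp only [innT, outT, if_pos hl] at h1
      simp only [act]
      have h2 := Option.some.inj h1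
      rw [← h2, fl_fl]

/-- The local type of an admissible matching at a vertex. -/
def locT (nx : Perm I) (le : I → α × Bool) (σ : α → Perm V) (t2 : Perm (V × (I × Bool)))
    (h : Adm (sysOf nx le σ) t2) (v : V) : LT le :=
  ⟨{ toFun := fun l => (t2 (v, l)).2
     invFun := fun l => (t2 (v, l)).2
     left_inv := fun l => by
       have h1 : (t2 (v, l)).1 = v := h.vtx2 (v, l)
       have h2 : t2 (v, l) = (v, (t2 (v, l)).2) := Prod.ext h1 rfl
       show (t2 (v, (t2 (v, l)).2)).2 = l
       rw [← h2, h.i2]
     right_inv := fun l => by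
       have h1 : (t2 (v, l)).1 = v := h.vtx2 (v, l)
       have h2 : t2 (v, l) = (v, (t2 (v, l)).2) := Prod.ext h1 rfl
       show (t2 (v, (t2 (v, l)).2)).2 = l
       rw [← h2, h.i2] },
    by
      refine ⟨?_, ?_, ?_⟩
      · intro l
        have h1 : (t2 (v, l)).1 = v := h.vtx2 (v, l)
        have h2 : t2 (v, l) = (v, (t2 (v, l)).2) := Prod.ext h1 rfl
        show (t2 (v, (t2 (v, l)).2)).2 = l
        rw [← h2, h.i2]
      · intro l hl
        have h1 : (t2 (v, l)).1 = v := h.vtx2 (v, l)
        exact h.f2 (v, l) (Prod.ext h1 hl)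
      · intro l
        exact h.lab2 (v, l)⟩

theorem glob_locT (nx : Perm I) (le : I → α × Bool) (σ : α → Perm V) (t2 : Perm (V × (I × Bool)))
    (h : Adm (sysOf nx le σ) t2) : glob le (locT nx le σ t2 h) = t2 := by
  ext1 x
  obtain ⟨v, l⟩ := x
  have h1 : (t2 (v, l)).1 = v := h.vtx2 (v, l)
  exact Prod.ext h1.symm rfl

theorem locT_compat (nx : Perm I) (le : I → α × Bool) (σ : α → Perm V)
    (t2 : Perm (V × (I × Bool))) (h : Adm (sysOf nx le σ) t2) (a : α) (v : V) :
    innT le a (locT nx le σ t2 h (σ a v)) = outT le a (locT nx le σ t2 h v) := by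
  funext l
  simp only [innT, outT]
  by_cases hl : labL le l = (a, true)
  · rw [if_pos hl, if_pos hl]
    have h1 := h.comm (v, l)
    simp only [sysOf, hl, act] at h1
    have h2 := congrArg Prod.snd h1
    simp only at h2
    show some (fl (t2 (σ a v, fl l)).2) = some (t2 (v, l)).2
    rw [h2, fl_fl]
  · rw [if_neg hl, if_neg hl]

open Classical in
/-- Count vector of a family of local types. -/
noncomputable def cnt (le : I → α × Bool) [Fintype V] (τ : V → LT le) : LT le → ℕ :=
  fun t => (Finset.univ.filter (fun v => τ v = t)).card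

theorem sum_cnt (le : I → α × Bool) [Fintype V] [Fintype (LT le)] (τ : V → LT le)
    (F : LT le → ℕ) : ∑ t, cnt le τ t * F t = ∑ v, F (τ v) := by
  classical
  rw [← Finset.sum_fiberwise (s := (Finset.univ : Finset V)) (g := τ)]
  apply Finset.sum_congr rfl
  intro t _
  rw [Finset.sum_congr rfl (g := fun _ => F t)]
  · rw [Finset.sum_const, smul_eq_mul, cnt]
  · intro v hv
    rw [(Finset.mem_filter.1 hv).2]

open Classical in
/-- The marginal equations. -/
def MX (le : I → α × Bool) [Fintype (LT le)] : Set (LT le → ℕ) :=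
  {n | ∀ a φ, ∑ t, n t * (if outT le a t = φ then 1 else 0) =
    ∑ t, n t * (if innT le a t = φ then 1 else 0)}

theorem cnt_mem (nx : Perm I) (le : I → α × Bool) [Fintype V] [Fintype (LT le)]
    (σ : α → Perm V) (t2 : Perm (V × (I × Bool))) (h : Adm (sysOf nx le σ) t2) :
    cnt le (locT nx le σ t2 h) ∈ MX le := by
  classical
  intro a φ
  rw [sum_cnt, sum_cnt]
  rw [← Equiv.sum_comp (σ a)
    (fun v => if innT le a (locT nx le σ t2 h v) = φ then 1 else 0)]
  apply Finset.sum_congr rfl
  intro v _
  rw [locT_compat]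

theorem exists_of_mem (nx : Perm I) (le : I → α × Bool) [Finite I] [Fintype (LT le)]
    (n : LT le → ℕ) (hn : n ∈ MX le) :
    ∃ (σ : α → Perm (Σ t, Fin (n t))), Adm (sysOf nx le σ) (glob le (fun v => v.1)) := by
  classical
  have key : ∀ a : α, ∃ s : Perm (Σ t, Fin (n t)), ∀ v, innT le a (s v).1 = outT le a v.1 := by
    intro a
    have hcard : ∀ φ, Fintype.card {v : Σ t, Fin (n t) // outT le a v.1 = φ} =
        Fintype.card {v : Σ t, Fin (n t) // innT le a v.1 = φ} := by
      intro φ
      have h1 : ∀ (P : LT le → Prop) [DecidablePred P],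
          Fintype.card {v : Σ t, Fin (n t) // P v.1} = ∑ t, n t * (if P t then 1 else 0) := by
        intro P _
        rw [Fintype.card_subtype, Finset.card_filter, Fintype.sum_sigma]
        apply Finset.sum_congr rfl
        intro t _
        split_ifs <;> simp
      rw [h1 (fun t => outT le a t = φ), h1 (fun t => innT le a t = φ)]
      exact hn a φ
    let e : ∀ φ, {v : Σ t, Fin (n t) // outT le a v.1 = φ} ≃
        {v : Σ t, Fin (n t) // innT le a v.1 = φ} := fun φ => Fintype.equivOfCardEq (hcard φ)
    refine ⟨Equiv.ofFiberEquiv e, fun v => ?_⟩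
    exact Equiv.ofFiberEquiv_map e v
  choose σ hσ using key
  refine ⟨σ, ?_⟩
  exact glob_adm nx le σ _ hσ

theorem exists_optimal [Finite I] (nx : Perm I) (le : I → α × Bool)
    (hex : ∃ (W : Type) (_ : Finite W) (_ : Nonempty W) (σ : α → Perm W)
      (t2 : Perm (W × (I × Bool))), Adm (sysOf nx le σ) t2) :
    ∃ (V : Type) (_ : Finite V) (_ : Nonempty V) (σ : α → Perm V)
      (t2 : Perm (V × (I × Bool))), Adm (sysOf nx le σ) t2 ∧ Optimal nx le σ t2 := by
  classical
  have := Fintype.ofFinite (LT le)
  let f : (LT le → ℕ) → ℕ := fun n => ∑ t, n t * ncl (t1L nx) t.1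
  let g : (LT le → ℕ) → ℕ := fun n => ∑ t, n t * 1
  have hncl : ∀ (W : Type) [Fintype W] (σ : α → Perm W) (τ : W → LT le),
      ncl (sysOf nx le σ).t1 (glob le τ) = ∑ v, ncl (t1L nx) (τ v).1 := by
    intro W _ σ τ
    exact ncl_fam nx (fun v => (τ v).1)
  have hf : ∀ (W : Type) [Fintype W] (σ : α → Perm W) (t2 : Perm (W × (I × Bool)))
      (h : Adm (sysOf nx le σ) t2), f (cnt le (locT nx le σ t2 h)) =
        ncl (sysOf nx le σ).t1 t2 := by
    intro W _ σ t2 h
    simp only [f]
    rw [sum_cnt le _ (fun t => ncl (t1L nx) t.1), ← hncl W σ, glob_locT]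
  have hg : ∀ (W : Type) [Fintype W] (τ : W → LT le), g (cnt le τ) = Nat.card W := by
    intro W _ τ
    simp only [g]
    rw [sum_cnt le _ (fun t => 1)]
    simp
  obtain ⟨m, hm, hm0, hmax⟩ := exists_opt (MX le) (by
      obtain ⟨W, _, _, σ, t2, h⟩ := hex
      have := Fintype.ofFinite W
      refine ⟨cnt le (locT nx le σ t2 h), cnt_mem nx le σ t2 h, ?_⟩
      intro h0
      have h1 := hg W (locT nx le σ t2 h)
      rw [h0] at h1
      have h2 : 0 < Nat.card W := Nat.card_pos
      have h3 : g 0 = 0 := by simp [g]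
      omega) (by
      intro m hm n hn hle a φ
      have e : ∀ G : LT le → ℕ, ∑ t, (n - m) t * G t + ∑ t, m t * G t = ∑ t, n t * G t := by
        intro G
        rw [← Finset.sum_add_distrib]
        apply Finset.sum_congr rfl
        intro t _
        rw [← add_mul]
        congr 1
        have : m t ≤ n t := hle t
        simp only [Pi.sub_apply]
        omega
      have e1 := e (fun t => if outT le a t = φ then 1 else 0)
      have e2 := e (fun t => if innT le a t = φ then 1 else 0)
      have e3 := hm a φ
      have e4 := hn a φ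
      omega) f g (by
      intro m n
      simp only [f, Pi.add_apply, add_mul, Finset.sum_add_distrib]) (by
      intro m n
      simp only [g, Pi.add_apply, add_mul, Finset.sum_add_distrib]) (by
      intro n hn
      obtain ⟨t, ht⟩ := Function.ne_iff.1 hn
      simp only [g, mul_one]
      have h1 : 0 < n t := Nat.pos_of_ne_zero ht
      exact lt_of_lt_of_le h1 (Finset.single_le_sum (f := n) (fun _ _ => Nat.zero_le _)
        (Finset.mem_univ t)))
  obtain ⟨σ, hσ⟩ := exists_of_mem nx le m hm
  have hgm : Nat.card (Σ t, Fin (m t)) = g m := by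
    rw [Nat.card_eq_fintype_card, Fintype.card_sigma]
    simp [g]
  have hfm : ncl (sysOf nx le σ).t1 (glob le (fun v : Σ t, Fin (m t) => v.1)) = f m := by
    rw [hncl]
    rw [Fintype.sum_sigma]
    simp only [f]
    apply Finset.sum_congr rfl
    intro t _
    simp
  refine ⟨Σ t, Fin (m t), inferInstance, ?_, σ, glob le (fun v => v.1), hσ, ?_⟩
  · obtain ⟨t, ht⟩ := Function.ne_iff.1 hm0
    exact ⟨⟨t, ⟨0, Nat.pos_of_ne_zero ht⟩⟩⟩
  · intro W _ _ σ' t2' h'
    have := Fintype.ofFinite W
    have h1 := hmax _ (cnt_mem nx le σ' t2' h')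
    rw [hf W σ' t2' h', hg, ← hgm, ← hfm] at h1
    exact h1

end loctypes

end Helper691
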