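import Pool.Agent.Helper691_Ssql.Surgery

/-!
The shortening lemma: in an optimal system there is no closed trivially labelled walk which meets
every class at most once and is reduced.
-/

namespace Helper691

open Equiv

universe u v w

/-- Inverse of a letter. -/
def flipL {α : Type v} (l : α × Bool) : α × Bool := (l.1, !l.2)

theorem flipL_flipL {α : Type v} (l : α × Bool) : flipL (flipL l) = l := by
  simp [flipL]

theorem flipL_ne {α : Type v} (l : α × Bool) : flipL l ≠ l := by
  intro h
  have := congrArg Prod.snd h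
  simp [flipL] at this

/-- The part of a flag system which is not changed by surgery. -/
structure Sys (Φ : Type u) (α : Type v) (V : Type w) where
  t0 : Φ → Φ
  t1 : Φ → Φ
  lab : Φ → α × Bool
  vtx : Φ → V
  i0 : ∀ x, t0 (t0 x) = x
  i1 : ∀ x, t1 (t1 x) = x
  f1 : ∀ x, t1 x ≠ x
  lab0 : ∀ x, lab (t0 x) = flipL (lab x)
  vtx1 : ∀ x, vtx (t1 x) = vtx x
  vtx0 : ∀ x y, lab x = lab y → vtx x = vtx y → vtx (t0 x) = vtx (t0 y)

variable {Φ : Type u} {α : Type v} {V : Type w}

/-- Admissible matchings of flags. -/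
structure Adm (S : Sys Φ α V) (t2 : Perm Φ) : Prop where
  i2 : ∀ x, t2 (t2 x) = x
  f2 : ∀ x, t2 x ≠ x
  comm : ∀ x, t2 (S.t0 x) = S.t0 (t2 x)
  lab2 : ∀ x, S.lab (t2 x) = S.lab x
  vtx2 : ∀ x, S.vtx (t2 x) = S.vtx x

/-- `WalkR R t0 a xs b`: the list of flags `xs` is a walk from the class of `a` to that of `b`. -/
def WalkR (R : Φ → Φ → Prop) (t0 : Φ → Φ) : Φ → List Φ → Φ → Prop
  | a, [], b => R a b
  | a, x :: xs, b => R a x ∧ WalkR R t0 (t0 x) xs b

theorem WalkR.append (S : Setoid Φ) (t0 : Φ → Φ) : ∀ (xs ys : List Φ) (a b : Φ),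
    WalkR S t0 a (xs ++ ys) b ↔ ∃ c, WalkR S t0 a xs c ∧ WalkR S t0 c ys b
  | [], ys, a, b => by
    constructor
    · intro h
      exact ⟨a, S.refl a, h⟩
    · rintro ⟨c, h1, h2⟩
      cases ys with
      | nil => exact S.trans h1 h2
      | cons y ys => exact ⟨S.trans h1 h2.1, h2.2⟩
  | x :: xs, ys, a, b => by
    constructor
    · rintro ⟨h1, h2⟩
      obtain ⟨c, h3, h4⟩ := (WalkR.append S t0 xs ys _ b).1 h2
      exact ⟨c, ⟨h1, h3⟩, h4⟩
    · rintro ⟨c, ⟨h1, h3⟩, h4⟩
      exact ⟨h1, (WalkR.append S t0 xs ys _ b).2 ⟨c, h3, h4⟩⟩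

theorem WalkR.head (S : Setoid Φ) (t0 : Φ → Φ) (xs : List Φ) {a b c : Φ} (h : S a b)
    (hw : WalkR S t0 b xs c) : WalkR S t0 a xs c := by
  cases xs with
  | nil => exact S.trans h hw
  | cons y ys => exact ⟨S.trans h hw.1, hw.2⟩

theorem WalkR.mono {R R' : Φ → Φ → Prop} {t0 : Φ → Φ} {P : Φ → Prop}
    (h : ∀ x y, P y → R x y → R' x y) : ∀ (xs : List Φ) (a b : Φ), (∀ x ∈ xs, P x) → P b →
    WalkR R t0 a xs b → WalkR R' t0 a xs b
  | [], _, _, _, hb, hw => h _ _ hb hw
  | x :: xs, a, b, hx, hb, hw => by
    refine ⟨h _ _ (hx x (by simp)) hw.1, WalkR.mono h xs _ b (fun y hy => hx y (by simp [hy])) hb hw.2⟩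

/-- A nonempty word representing the identity has an adjacent cancelling pair. -/
theorem exists_cancel (L : List (α × Bool)) (hne : L ≠ []) (h : FreeGroup.mk L = 1) :
    ∃ L1 l L2, L = L1 ++ l :: flipL l :: L2 := by
  classical
  have h1 : FreeGroup.reduce L = [] := by
    have := congrArg FreeGroup.toWord h
    simpa using this
  have h2 : FreeGroup.Red L [] := by
    have := FreeGroup.reduce.red (L := L)
    rwa [h1] at this
  rcases Relation.ReflTransGen.cases_head h2 with h3 | ⟨L', h3, _⟩
  · exact absurd h3 hne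
  · cases h3 with
    | not => exact ⟨_, _, _, rfl⟩

theorem mk_cancel (L1 L2 : List (α × Bool)) (l : α × Bool) :
    FreeGroup.mk (L1 ++ l :: flipL l :: L2) = FreeGroup.mk (L1 ++ L2) := by
  obtain ⟨a, b⟩ := l
  exact Quot.sound FreeGroup.Red.Step.not

variable [DecidableEq Φ] [Finite Φ]

omit [Finite Φ] in
theorem swap_inv_fun {β : Type*} (f : Φ → β) {p z : Φ} (h : f p = f z) (x : Φ) :
    f (swap p z x) = f x := by
  by_cases h1 : x = p
  · subst h1
    simp [h]
  by_cases h2 : x = z
  · subst h2
    simp [h]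
  rw [swap_apply_of_ne_of_ne h1 h2]

omit [Finite Φ] in
theorem surg_inv_fun {β : Type*} (f : Φ → β) {p z : Φ} (h : f p = f z) {t2 : Perm Φ}
    (h2 : ∀ x, f (t2 x) = f x) (x : Φ) : f (surg t2 p z x) = f x := by
  simp only [surg, Perm.mul_apply]
  rw [swap_inv_fun f h, h2, swap_inv_fun f h]

/-- Surgery on both ends of an edge. -/
def surg2 (S : Sys Φ α V) (t2 : Perm Φ) (p z : Φ) : Perm Φ :=
  surg (surg t2 p z) (S.t0 p) (S.t0 z)

omit [Finite Φ] in
theorem surg2_adm (S : Sys Φ α V) {t2 : Perm Φ} (h : Adm S t2) {p z : Φ}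
    (hl : S.lab p = S.lab z) (hv : S.vtx p = S.vtx z) : Adm S (surg2 S t2 p z) where
  i2 := surg_invol (surg_invol h.i2)
  f2 := surg_fpf (surg_fpf h.f2)
  lab2 := by
    apply surg_inv_fun S.lab
    · rw [S.lab0, S.lab0, hl]
    · exact surg_inv_fun S.lab hl h.lab2
  vtx2 := by
    apply surg_inv_fun S.vtx
    · exact S.vtx0 _ _ hl hv
    · exact surg_inv_fun S.vtx hv h.vtx2
  comm := by
    intro x
    have n1 : ∀ a, S.lab a = S.lab p → a ≠ S.t0 p ∧ a ≠ S.t0 z := by
      intro a ha
      constructor
      · rintro rfl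
        rw [S.lab0] at ha
        exact flipL_ne _ ha
      · rintro rfl
        rw [S.lab0, hl] at ha
        exact flipL_ne _ ha
    -- the two transpositions commute
    have hc : ∀ a, swap p z (swap (S.t0 p) (S.t0 z) a) = swap (S.t0 p) (S.t0 z) (swap p z a) := by
      intro a
      have hd : Perm.Disjoint (swap p z) (swap (S.t0 p) (S.t0 z)) := by
        intro a
        by_cases h1 : a = p
        · right
          subst h1
          exact swap_apply_of_ne_of_ne (n1 _ rfl).1 (n1 _ rfl).2
        by_cases h2 : a = z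
        · right
          subst h2
          exact swap_apply_of_ne_of_ne (n1 _ hl.symm).1 (n1 _ hl.symm).2
        · left
          exact swap_apply_of_ne_of_ne h1 h2
      have := hd.commute
      exact congrArg (fun f : Perm Φ => f a) this.eq
    have inj0 : Function.Injective S.t0 := fun a b hab => by
      rw [← S.i0 a, hab, S.i0]
    have e1 : ∀ a, swap (S.t0 p) (S.t0 z) (S.t0 a) = S.t0 (swap p z a) := by
      intro a
      exact (inj0.swap_apply p z a)
    have e2 : ∀ a, swap p z (S.t0 a) = S.t0 (swap (S.t0 p) (S.t0 z) a) := by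
      intro a
      have := inj0.swap_apply (S.t0 p) (S.t0 z) a
      rw [S.i0, S.i0] at this
      exact this
    simp only [surg2, surg, Perm.mul_apply]
    rw [e1, e2, h.comm, e2, hc, e1]
    exact congrArg S.t0 (hc _)

/-- Conditions on an ordered pair of flags of a walk. -/
def Good (S : Sys Φ α V) (t2 : Perm Φ) (x y : Φ) : Prop :=
  ¬ Cl S.t1 t2 x y ∧ y ≠ S.t0 x ∧ y ≠ t2 (S.t0 x)

theorem shorten (S : Sys Φ α V) (n : ℕ) : ∀ (t2 : Perm Φ), Adm S t2 →
    (∀ t2', Adm S t2' → ncl S.t1 t2' ≤ ncl S.t1 t2) → ∀ (xs : List Φ) (a : Φ), xs.length ≤ n →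
    xs ≠ [] → WalkR (Cl S.t1 t2) S.t0 a xs a → xs.Pairwise (Good S t2) →
    FreeGroup.mk (xs.map S.lab) = 1 → False := by
  induction n with
  | zero =>
    intro t2 _ _ xs a h0 h1
    exact absurd (List.length_eq_zero_iff.1 (Nat.le_zero.1 h0)) h1
  | succ n ih =>
    intro t2 hadm hopt xs a hlen hne hw hpw hmk
    obtain ⟨L1, l, L2, hL⟩ := exists_cancel (xs.map S.lab) (by simpa using hne) hmk
    obtain ⟨ys, xs1, rfl, hys, hxs1⟩ := List.map_eq_append_iff.1 hL
    obtain ⟨x, xs2, rfl, hx, hxs2⟩ := List.map_eq_cons_iff.1 hxs1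
    obtain ⟨y, zs, rfl, hy, hzs⟩ := List.map_eq_cons_iff.1 hxs2
    have hlab : S.lab y = flipL (S.lab x) := by rw [hx, hy]
    obtain ⟨i2, f2, comm, lab2, vtx2⟩ := id hadm
    have i1 := S.i1
    have f1 := S.f1
    obtain ⟨c, hw1, hcx, hxy, hw2⟩ := (WalkR.append _ _ _ _ _ _).1 hw
    rw [List.pairwise_append, List.pairwise_cons, List.pairwise_cons] at hpw
    obtain ⟨hpys, ⟨hpx, hpy, hpzs⟩, hpc⟩ := hpw
    have gxy : Good S t2 x y := hpx y (by simp)
    -- split at `p = t0 x`
    obtain ⟨z, hz, hsplit⟩ := surg_split i1 f1 i2 f2 hxy gxy.2.1 gxy.2.2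
    have hRyz : Cl S.t1 t2 y z := by
      rcases hz with rfl | rfl
      · exact (Cl _ _).refl _
      · exact Cl.t2 _ _ _
    have hRpz : Cl S.t1 t2 (S.t0 x) z := (Cl _ _).trans hxy hRyz
    have hz2 : z ≠ t2 (S.t0 x) := by
      rcases hz with rfl | rfl
      · exact gxy.2.2
      · intro h
        exact gxy.2.1 (t2.injective h)
    have hlz : S.lab (S.t0 x) = S.lab z := by
      rw [S.lab0, ← hlab]
      rcases hz with rfl | rfl
      · rfl
      · rw [lab2]
    have hvz : S.vtx (S.t0 x) = S.vtx z := Cl.inv S.vtx S.vtx1 vtx2 hRpz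
    have hadm2 := surg2_adm S hadm hlz hvz
    have ht0z : S.t0 z = S.t0 y ∨ S.t0 z = t2 (S.t0 y) := by
      rcases hz with rfl | rfl
      · exact Or.inl rfl
      · right
        rw [comm]
    have hRt0z : Cl S.t1 t2 (S.t0 y) (S.t0 z) := by
      rcases ht0z with h | h
      · rw [h]
      · rw [h]; exact Cl.t2 _ _ _
    -- abbreviations
    set ta := surg t2 (S.t0 x) z with hta
    have ia := surg_invol (p := S.t0 x) (z := z) i2
    have fa := surg_fpf (p := S.t0 x) (z := z) f2
    rw [← hta] at ia fa
    have hleA : ∀ {u v}, Cl S.t1 ta u v → Cl S.t1 t2 u v := fun h =>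
      surg_le_of_same i2 f2 hz2 hRpz h
    have hgeA : ∀ {u v}, ¬ Cl S.t1 t2 (S.t0 x) u → Cl S.t1 t2 u v → Cl S.t1 ta u v := fun h h' =>
      surg_same_outside i2 f2 hz2 hRpz h h'
    have hxp : ¬ Cl S.t1 t2 (S.t0 x) x := fun h =>
      gxy.1 ((Cl _ _).trans ((Cl _ _).symm h) hxy)
    have hta_of : ∀ w, S.lab w = S.lab x → ta w = t2 w := by
      intro w hw
      have h0 : S.lab w ≠ S.lab (S.t0 x) := by
        rw [hw, S.lab0]
        exact (flipL_ne _).symm
      apply surg_of_ne i2
      · rintro rfl; exact h0 rfl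
      · rintro rfl; exact h0 hlz.symm
      · rintro rfl; exact h0 (lab2 _)
      · rintro rfl; exact h0 (by rw [lab2, hlz])
    have htax : ta x = t2 x := hta_of x rfl
    have htaz : ta (S.t0 z) = t2 (S.t0 z) := hta_of _ (by
      rw [S.lab0, ← hlz, S.lab0, flipL_flipL])
    have e1 : surg2 S t2 (S.t0 x) z = surg ta x (S.t0 z) := by
      rw [surg2, S.i0]
    have hzx2 : S.t0 z ≠ ta x := by
      rw [htax]
      intro h
      apply hz2
      rw [comm, ← h, S.i0]
    by_cases hcase : ys = [] ∧ zs = []
    · -- closed path of length two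
      obtain ⟨rfl, rfl⟩ := hcase
      have h1 : Cl S.t1 t2 x (S.t0 z) := by
        have h2 : Cl S.t1 t2 (S.t0 y) a := hw2
        have h3 : Cl S.t1 t2 a c := hw1
        have h4 : Cl S.t1 t2 c x := hcx
        exact (Cl _ _).trans ((Cl _ _).symm ((Cl _ _).trans h2 ((Cl _ _).trans h3 h4))) hRt0z
      have h2 : Cl S.t1 ta x (S.t0 z) := hgeA hxp h1
      have h3 := ncl_same (t1 := S.t1) ia fa hzx2 h2
      have h4 := hopt _ hadm2
      rw [e1] at h4
      omega
    · -- merge at the other end
      have hnx : ¬ Cl S.t1 t2 x (S.t0 y) := by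
        intro h
        rcases zs with _ | ⟨z', zs⟩
        · rcases ys with _ | ⟨y', ys⟩
          · exact hcase ⟨rfl, rfl⟩
          · have h2 : Cl S.t1 t2 (S.t0 y) a := hw2
            have h3 : Cl S.t1 t2 a y' := hw1.1
            have h4 := (hpc y' (by simp) x (by simp)).1
            exact h4 ((Cl _ _).symm ((Cl _ _).trans h ((Cl _ _).trans h2 h3)))
        · have h2 : Cl S.t1 t2 (S.t0 y) z' := hw2.1
          have h4 := (hpx z' (by simp)).1
          exact h4 ((Cl _ _).trans h h2)
      have hna : ¬ Cl S.t1 ta x (S.t0 z) := by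
        intro h
        exact hnx ((Cl _ _).trans (hleA h) ((Cl _ _).symm hRt0z))
      have hm := ncl_merge ia fa hzx2 i1 f1 hna
      rw [← e1] at hm
      have hgeB : ∀ {u v}, Cl S.t1 ta u v → Cl S.t1 (surg2 S t2 (S.t0 x) z) u v := by
        intro u v h
        rw [e1]
        exact surg_ge_of_ne ia fa hzx2 i1 f1 hna h
      have hleB : ∀ {u v}, Cl S.t1 (surg2 S t2 (S.t0 x) z) u v → Cl S.t1 t2 u v ∨
          ((Cl S.t1 t2 x u ∨ Cl S.t1 t2 (S.t0 z) u) ∧
            (Cl S.t1 t2 x v ∨ Cl S.t1 t2 (S.t0 z) v)) := by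
        intro u v h
        rw [e1] at h
        rcases surg_le ia fa hzx2 h with h | ⟨h1, h2⟩
        · exact Or.inl (hleA h)
        · refine Or.inr ⟨?_, ?_⟩
          · rcases h1 with h1 | h1
            · exact Or.inl (hleA h1)
            · exact Or.inr (hleA h1)
          · rcases h2 with h1 | h1
            · exact Or.inl (hleA h1)
            · exact Or.inr (hleA h1)
      -- properties of the remaining flags
      have hok : ∀ u ∈ ys ++ zs, ¬ Cl S.t1 t2 (S.t0 x) u ∧ ¬ Cl S.t1 t2 x u ∧ u ≠ S.t0 y ∧
          u ≠ t2 (S.t0 y) := by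
        intro u hu
        rw [List.mem_append] at hu
        rcases hu with hu | hu
        · have g1 := hpc u hu x (by simp)
          have g2 := hpc u hu y (by simp)
          refine ⟨fun h => g2.1 ((Cl _ _).trans ((Cl _ _).symm h) hxy),
            fun h => g1.1 ((Cl _ _).symm h), ?_, ?_⟩
          · rintro rfl
            exact g2.2.1 (S.i0 y).symm
          · rintro rfl
            apply g2.2.2
            rw [comm, i2, S.i0]
        · have g1 := hpx u (by simp [hu])
          have g2 := hpy u hu
          exact ⟨fun h => g2.1 ((Cl _ _).trans ((Cl _ _).symm hxy) h), g1.1, g2.2.1, g2.2.2⟩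
      have hpair : (ys ++ zs).Pairwise (Good S t2) := by
        rw [List.pairwise_append]
        exact ⟨hpys, hpzs, fun u hu v hv => hpc u hu v (by simp [hv])⟩
      have hneq : ys ++ zs ≠ [] := by
        intro h
        exact hcase (List.append_eq_nil_iff.1 h)
      have hopt2 : ∀ t2', Adm S t2' →
          ncl S.t1 t2' ≤ ncl S.t1 (surg2 S t2 (S.t0 x) z) := by
        intro t2' h'
        have := hopt t2' h'
        omega
      refine ih _ hadm2 hopt2 (ys ++ zs) a ?_ hneq ?_ ?_ ?_
      · simp only [List.length_append, List.length_cons] at hlen ⊢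
        omega
      · -- walk
        have hP : ∀ u v, ¬ Cl S.t1 t2 (S.t0 x) v → Cl S.t1 t2 u v →
            Cl S.t1 (surg2 S t2 (S.t0 x) z) u v := by
          intro u v hv huv
          apply hgeB
          refine hgeA (fun h => hv ((Cl _ _).trans h huv)) huv
        have hcP : ¬ Cl S.t1 t2 (S.t0 x) c := fun h => hxp ((Cl _ _).trans h hcx)
        have haP : ¬ Cl S.t1 t2 (S.t0 x) a := by
          rcases ys with _ | ⟨y', ys⟩
          · intro h
            exact hcP ((Cl _ _).trans h hw1)
          · intro h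
            exact (hok y' (by simp)).1 ((Cl _ _).trans h hw1.1)
        have w1 := WalkR.mono (P := fun v => ¬ Cl S.t1 t2 (S.t0 x) v) hP ys a c
          (fun u hu => (hok u (by simp [hu])).1) hcP hw1
        have w2 := WalkR.mono (P := fun v => ¬ Cl S.t1 t2 (S.t0 x) v) hP zs (S.t0 y) a
          (fun u hu => (hok u (by simp [hu])).1) haP hw2
        rw [WalkR.append]
        refine ⟨c, w1, WalkR.head _ _ _ ?_ w2⟩
        -- c ~ x ~ t0 z ~ t0 y
        have h1 : Cl S.t1 (surg2 S t2 (S.t0 x) z) c x := hP _ _ hxp hcx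
        have h2 : Cl S.t1 (surg2 S t2 (S.t0 x) z) x (S.t0 z) := by
          rw [e1]
          exact surg_merge ia fa hzx2 i1 f1 hna
        have h3 : Cl S.t1 (surg2 S t2 (S.t0 x) z) (S.t0 z) (S.t0 y) := by
          rcases ht0z with h | h
          · rw [h]
          · apply hgeB
            have h5 : ta (S.t0 z) = S.t0 y := by
              rw [htaz, h, i2]
            have := Cl.t2 S.t1 ta (S.t0 z)
            rwa [h5] at this
        exact (Cl _ _).trans h1 ((Cl _ _).trans h2 h3)
      · -- pairwise
        refine List.Pairwise.imp_of_mem ?_ hpair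
        intro u v hu hv huv
        obtain ⟨ou1, ou2, ou3, ou4⟩ := hok u hu
        obtain ⟨ov1, ov2, ov3, ov4⟩ := hok v hv
        refine ⟨?_, huv.2.1, ?_⟩
        · intro h
          rcases hleB h with h | ⟨h1, h2⟩
          · exact huv.1 h
          · rcases h1 with h1 | h1
            · exact ou2 h1
            · rcases h2 with h2 | h2
              · exact ov2 h2
              · exact huv.1 ((Cl _ _).trans ((Cl _ _).symm h1) h2)
        · have key : surg2 S t2 (S.t0 x) z (S.t0 u) = t2 (S.t0 u) := by
            have n0 : S.t0 u ≠ S.t0 x := by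
              intro h
              have : u = x := by rw [← S.i0 u, h, S.i0]
              subst this
              exact ou2 ((Cl _ _).refl _)
            have n1 : S.t0 u ≠ t2 (S.t0 x) := by
              intro h
              have : u = t2 x := by rw [← S.i0 u, h, comm, S.i0]
              subst this
              exact ou2 (Cl.t2 _ _ _)
            have n2 : S.t0 u ≠ z ∧ S.t0 u ≠ t2 z := by
              rcases hz with rfl | rfl
              · constructor
                · intro h
                  exact ou3 (by rw [← h, S.i0])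
                · intro h
                  apply ou4
                  rw [comm, ← h, S.i0]
              · constructor
                · intro h
                  apply ou4
                  rw [comm, ← h, S.i0]
                · intro h
                  rw [i2] at h
                  exact ou3 (by rw [← h, S.i0])
            have ea : ta (S.t0 u) = t2 (S.t0 u) := surg_of_ne i2 n0 n2.1 n1 n2.2
            rw [e1, surg_of_ne ia, ea]
            · intro h
              have : u = S.t0 x := by rw [← h, S.i0]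
              subst this
              exact ou1 ((Cl _ _).refl _)
            · intro h
              have : u = z := by rw [← S.i0 u, h, S.i0]
              subst this
              exact ou1 hRpz
            · rw [htax]
              intro h
              have : u = t2 (S.t0 x) := by rw [← S.i0 u, h, comm]
              subst this
              exact ou1 (Cl.t2 _ _ _)
            · rw [htaz]
              intro h
              have : u = t2 z := by rw [← S.i0 u, h, comm, S.i0]
              subst this
              exact ou1 ((Cl _ _).trans hRpz (Cl.t2 _ _ _))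
          rw [key]
          exact huv.2.2
      · rw [← hmk]
        simp only [List.map_append, List.map_cons, hlab]
        exact (mk_cancel _ _ _).symm

end Helper691
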