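import Mathlib

/-!
Surgery on a pair of fixed-point-free involutions `t1, t2` of a finite set: conjugating `t2` by a
transposition, and the effect on the number of classes of the generated equivalence relation.
-/

namespace Helper691

open Equiv

universe u

section basic

variable {Φ : Type u}

/-- The equivalence relation generated by `x ~ t1 x` and `x ~ t2 x`. -/
def Cl (t1 t2 : Φ → Φ) : Setoid Φ :=
  Relation.EqvGen.setoid (fun x y => y = t1 x ∨ y = t2 x)

theorem Cl.t1 (t1 t2 : Φ → Φ) (x : Φ) : Cl t1 t2 x (t1 x) :=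
  Relation.EqvGen.rel _ _ (Or.inl rfl)

theorem Cl.t2 (t1 t2 : Φ → Φ) (x : Φ) : Cl t1 t2 x (t2 x) :=
  Relation.EqvGen.rel _ _ (Or.inr rfl)

theorem Cl.le_setoid {t1 t2 : Φ → Φ} (S : Setoid Φ) (h1 : ∀ x, S x (t1 x)) (h2 : ∀ x, S x (t2 x))
    {x y : Φ} (h : Cl t1 t2 x y) : S x y := by
  induction h with
  | rel x y h =>
    rcases h with rfl | rfl
    · exact h1 x
    · exact h2 x
  | refl x => exact S.refl x
  | symm x y _ ih => exact S.symm ih
  | trans x y z _ _ ih1 ih2 => exact S.trans ih1 ih2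

theorem Cl.inv {t1 t2 : Φ → Φ} {β : Type*} (f : Φ → β) (h1 : ∀ x, f (t1 x) = f x)
    (h2 : ∀ x, f (t2 x) = f x) {x y : Φ} (h : Cl t1 t2 x y) : f x = f y := by
  have := Cl.le_setoid (Setoid.ker f) (fun x => (h1 x).symm) (fun x => (h2 x).symm) h
  exact this

/-- A set closed under two involutions is a union of classes. -/
theorem Cl.mem_iff {t1 t2 : Φ → Φ} (i1 : ∀ x, t1 (t1 x) = x) (i2 : ∀ x, t2 (t2 x) = x)
    (S : Set Φ) (h1 : ∀ x ∈ S, t1 x ∈ S) (h2 : ∀ x ∈ S, t2 x ∈ S) {x y : Φ}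
    (h : Cl t1 t2 x y) : x ∈ S ↔ y ∈ S := by
  have := Cl.inv (fun x => x ∈ S) (fun x => by
    refine propext ⟨fun h => ?_, h1 x⟩
    have := h1 _ h
    rwa [i1] at this) (fun x => by
    refine propext ⟨fun h => ?_, h2 x⟩
    have := h2 _ h
    rwa [i2] at this) h
  exact iff_of_eq this

/-- Number of classes. -/
noncomputable def ncl (t1 t2 : Φ → Φ) : ℕ := Nat.card (Quotient (Cl t1 t2))

theorem ncl_le_of_le [Finite Φ] {t1 t2 t2' : Φ → Φ}
    (h : ∀ x y, Cl t1 t2' x y → Cl t1 t2 x y) : ncl t1 t2 ≤ ncl t1 t2' := by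
  unfold ncl
  have : Function.Surjective
      (Quotient.map' (s₁ := Cl t1 t2') (s₂ := Cl t1 t2) id (fun x y hxy => h x y hxy)) := by
    intro q
    induction q using Quotient.inductionOn with
    | h a => exact ⟨Quotient.mk _ a, rfl⟩
  exact Nat.card_le_card_of_surjective _ this

theorem ncl_lt_of_le [Finite Φ] {t1 t2 t2' : Φ → Φ}
    (h : ∀ x y, Cl t1 t2' x y → Cl t1 t2 x y) (a b : Φ) (hab : Cl t1 t2 a b)
    (hab' : ¬ Cl t1 t2' a b) : ncl t1 t2 + 1 ≤ ncl t1 t2' := by
  unfold ncl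
  have hs : Function.Surjective
      (Quotient.map' (s₁ := Cl t1 t2') (s₂ := Cl t1 t2) id (fun x y hxy => h x y hxy)) := by
    intro q
    induction q using Quotient.inductionOn with
    | h a => exact ⟨Quotient.mk _ a, rfl⟩
  have := Fintype.ofFinite (Quotient (Cl t1 t2))
  have := Fintype.ofFinite (Quotient (Cl t1 t2'))
  rw [Nat.card_eq_fintype_card, Nat.card_eq_fintype_card, Nat.add_one_le_iff]
  apply Fintype.card_lt_of_surjective_not_injective _ hs
  intro hi
  have : (Quotient.mk (Cl t1 t2') a) = Quotient.mk (Cl t1 t2') b := by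
    apply hi
    exact Quotient.sound hab
  exact hab' (Quotient.exact this)

theorem ncl_le_add_one [Finite Φ] {t1 t2 t2' : Φ → Φ} (D : Set Φ) (p : Φ)
    (h : ∀ x y, Cl t1 t2' x y → Cl t1 t2 x y ∨
      ((Cl t1 t2 p x ∨ x ∈ D) ∧ (Cl t1 t2 p y ∨ y ∈ D)))
    (hD : ∀ x ∈ D, ∀ y ∈ D, Cl t1 t2 x y)
    (hle : ∀ x y, Cl t1 t2 x y → Cl t1 t2' x y) :
    ncl t1 t2 ≤ ncl t1 t2' + 1 := by
  classical
  unfold ncl
  have := Fintype.ofFinite (Quotient (Cl t1 t2))
  have := Fintype.ofFinite (Quotient (Cl t1 t2'))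
  rw [Nat.card_eq_fintype_card, Nat.card_eq_fintype_card, ← Fintype.card_option]
  let f : Quotient (Cl t1 t2) → Option (Quotient (Cl t1 t2')) := fun q =>
    if q = Quotient.mk _ p then none else
      some (Quotient.map' (s₁ := Cl t1 t2) (s₂ := Cl t1 t2') id (fun x y hxy => hle x y hxy) q)
  apply Fintype.card_le_of_injective f
  intro q r hqr
  induction q using Quotient.inductionOn with
  | h a =>
  induction r using Quotient.inductionOn with
  | h b =>
  simp only [f] at hqr
  split_ifs at hqr with h1 h2 h3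
  · rw [h1, h2]
  · have h4 := Option.some.inj hqr
    have h5 : Cl t1 t2' a b := Quotient.exact h4
    rcases h a b h5 with h6 | ⟨h6, h7⟩
    · exact Quotient.sound h6
    · have h8 : a ∈ D := by
        rcases h6 with h6 | h6
        · exact absurd (Quotient.sound ((Cl t1 t2).symm h6)) h1
        · exact h6
      have h9 : b ∈ D := by
        rcases h7 with h7 | h7
        · exact absurd (Quotient.sound ((Cl t1 t2).symm h7)) h3
        · exact h7
      exact Quotient.sound (hD a h8 b h9)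

end basic

section surgery

variable {Φ : Type u} [DecidableEq Φ]

/-- Surgery: conjugate `t2` by the transposition `(p z)`. -/
def surg (t2 : Perm Φ) (p z : Φ) : Perm Φ := swap p z * t2 * swap p z

variable {t2 : Perm Φ} (i2 : ∀ x, t2 (t2 x) = x) (f2 : ∀ x, t2 x ≠ x) {p z : Φ}
  (hz : z ≠ p) (hz2 : z ≠ t2 p)

include i2 in
theorem surg_invol (x : Φ) : surg t2 p z (surg t2 p z x) = x := by
  simp [surg, i2]

include f2 in
theorem surg_fpf (x : Φ) : surg t2 p z x ≠ x := by
  intro h
  simp only [surg, Perm.mul_apply] at h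
  have := congrArg (swap p z) h
  simp only [swap_apply_self] at this
  exact f2 _ this

include i2 in
theorem surg_of_ne {x : Φ} (h1 : x ≠ p) (h2 : x ≠ z) (h3 : x ≠ t2 p) (h4 : x ≠ t2 z) :
    surg t2 p z x = t2 x := by
  have h5 : t2 x ≠ p := fun h => h3 (by rw [← h, i2])
  have h6 : t2 x ≠ z := fun h => h4 (by rw [← h, i2])
  simp [surg, swap_apply_of_ne_of_ne h1 h2, swap_apply_of_ne_of_ne h5 h6]

include i2 f2 hz2 in
theorem surg_p : surg t2 p z p = t2 z := by
  have h5 : t2 z ≠ p := fun h => hz2 (by rw [← h, i2])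
  have h6 : t2 z ≠ z := f2 z
  simp [surg, swap_apply_of_ne_of_ne h5 h6]

include f2 hz2 in
theorem surg_z : surg t2 p z z = t2 p := by
  have h5 : t2 p ≠ z := fun h => hz2 h.symm
  have h6 : t2 p ≠ p := f2 p
  simp [surg, swap_apply_of_ne_of_ne h6 h5]

include i2 f2 hz2 in
theorem surg_t2p : surg t2 p z (t2 p) = z := by
  have h5 : t2 p ≠ z := fun h => hz2 h.symm
  have h6 : t2 p ≠ p := f2 p
  simp [surg, swap_apply_of_ne_of_ne h6 h5, i2]

include i2 f2 hz2 in
theorem surg_t2z : surg t2 p z (t2 z) = p := by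
  have h5 : t2 z ≠ p := fun h => hz2 (by rw [← h, i2])
  have h6 : t2 z ≠ z := f2 z
  simp [surg, swap_apply_of_ne_of_ne h5 h6, i2]

theorem surg_surg (t2 : Perm Φ) (p z : Φ) : surg (surg t2 p z) p z = t2 := by
  ext x
  simp [surg]

variable {t1 : Φ → Φ}

include i2 f2 hz2 in
/-- Classes after surgery: contained in old classes, apart from a possible union of the two
classes involved. -/
theorem surg_le {x y : Φ} (h : Cl t1 (surg t2 p z) x y) :
    Cl t1 t2 x y ∨ ((Cl t1 t2 p x ∨ Cl t1 t2 z x) ∧ (Cl t1 t2 p y ∨ Cl t1 t2 z y)) := by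
  let A : Φ → Prop := fun x => Cl t1 t2 p x ∨ Cl t1 t2 z x
  have hA : ∀ {x y}, Cl t1 t2 x y → A x → A y := fun {x y} hxy hx => by
    rcases hx with hx | hx
    · exact Or.inl ((Cl t1 t2).trans hx hxy)
    · exact Or.inr ((Cl t1 t2).trans hx hxy)
  let S : Setoid Φ :=
    { r := fun x y => Cl t1 t2 x y ∨ (A x ∧ A y)
      iseqv :=
        { refl := fun x => Or.inl ((Cl t1 t2).refl x)
          symm := fun {x y} h => by
            rcases h with h | ⟨h1, h2⟩
            · exact Or.inl ((Cl t1 t2).symm h)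
            · exact Or.inr ⟨h2, h1⟩
          trans := fun {x y z} h h' => by
            rcases h with h | ⟨h1, h2⟩
            · rcases h' with h' | ⟨h3, h4⟩
              · exact Or.inl ((Cl t1 t2).trans h h')
              · exact Or.inr ⟨hA ((Cl t1 t2).symm h) h3, h4⟩
            · rcases h' with h' | ⟨h3, h4⟩
              · exact Or.inr ⟨h1, hA h' h2⟩
              · exact Or.inr ⟨h1, h4⟩ } }
  have hp : A p := Or.inl ((Cl t1 t2).refl p)
  have hz' : A z := Or.inr ((Cl t1 t2).refl z)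
  have hp2 : A (t2 p) := hA (Cl.t2 t1 t2 p) hp
  have hz3 : A (t2 z) := hA (Cl.t2 t1 t2 z) hz'
  refine Cl.le_setoid S (fun x => Or.inl (Cl.t1 t1 t2 x)) (fun x => ?_) h
  by_cases h1 : x = p
  · subst h1
    rw [surg_p i2 f2 hz2]
    exact Or.inr ⟨hp, hz3⟩
  by_cases h2 : x = z
  · subst h2
    rw [surg_z f2 hz2]
    exact Or.inr ⟨hz', hp2⟩
  by_cases h3 : x = t2 p
  · subst h3
    rw [surg_t2p i2 f2 hz2]
    exact Or.inr ⟨hp2, hz'⟩
  by_cases h4 : x = t2 z
  · subst h4
    rw [surg_t2z i2 f2 hz2]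
    exact Or.inr ⟨hz3, hp⟩
  rw [surg_of_ne i2 h1 h2 h3 h4]
  exact Or.inl (Cl.t2 t1 t2 x)

include i2 f2 hz2 in
theorem surg_le_of_same (hpz : Cl t1 t2 p z) {x y : Φ} (h : Cl t1 (surg t2 p z) x y) :
    Cl t1 t2 x y := by
  rcases surg_le i2 f2 hz2 h with h | ⟨h1, h2⟩
  · exact h
  · have h3 : Cl t1 t2 p x := by
      rcases h1 with h1 | h1
      · exact h1
      · exact (Cl t1 t2).trans hpz h1
    have h4 : Cl t1 t2 p y := by
      rcases h2 with h2 | h2
      · exact h2
      · exact (Cl t1 t2).trans hpz h2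
    exact (Cl t1 t2).trans ((Cl t1 t2).symm h3) h4

theorem even_of_fpf_invol {α : Type*} [DecidableEq α] (S : Finset α) (f : α → α)
    (hf : ∀ x ∈ S, f x ∈ S) (hi : ∀ x ∈ S, f (f x) = x) (hn : ∀ x ∈ S, f x ≠ x) :
    Even S.card := by
  have : ∑ x ∈ S, (1 : ZMod 2) = 0 := by
    refine Finset.sum_involution (fun a _ => f a) ?_ ?_ ?_ ?_
    · intro a ha
      decide
    · intro a ha _
      exact hn a ha
    · intro a ha
      exact hf a ha
    · intro a ha
      exact hi a ha
  simp only [Finset.sum_const, nsmul_eq_mul, mul_one] at this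
  exact (ZMod.natCast_eq_zero_iff_even).1 this

variable (i1 : ∀ x, t1 (t1 x) = x) (f1 : ∀ x, t1 x ≠ x)

include i1 f1 i2 f2 hz2 in
/-- Surgery between different classes merges them. -/
theorem surg_merge [Finite Φ] (hpz : ¬ Cl t1 t2 p z) : Cl t1 (surg t2 p z) p z := by
  classical
  have := Fintype.ofFinite Φ
  by_contra hc
  let T : Finset Φ := Finset.univ.filter (fun x => Cl t1 (surg t2 p z) p x ∧ Cl t1 t2 p x)
  have hT : ∀ x, x ∈ T ↔ Cl t1 (surg t2 p z) p x ∧ Cl t1 t2 p x := by
    intro x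
    simp [T]
  have hp : p ∈ T := by
    rw [hT]
    exact ⟨(Cl _ _).refl p, (Cl _ _).refl p⟩
  have e1 : Even T.card := by
    apply even_of_fpf_invol T t1
    · intro x hx
      rw [hT] at hx ⊢
      exact ⟨(Cl _ _).trans hx.1 (Cl.t1 _ _ x), (Cl _ _).trans hx.2 (Cl.t1 _ _ x)⟩
    · intro x _
      exact i1 x
    · intro x _
      exact f1 x
  have e2 : Even (T.erase p).card := by
    apply even_of_fpf_invol (T.erase p) t2
    · intro x hx
      rw [Finset.mem_erase, hT] at hx
      obtain ⟨hxp, hx1, hx2⟩ := hx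
      have h2 : x ≠ z := by
        rintro rfl
        exact hpz hx2
      have h3 : x ≠ t2 p := by
        rintro rfl
        apply hc
        have := Cl.t2 t1 (surg t2 p z) (t2 p)
        rw [surg_t2p i2 f2 hz2] at this
        exact (Cl _ _).trans hx1 this
      have h4 : x ≠ t2 z := by
        rintro rfl
        exact hpz ((Cl _ _).trans hx2 ((Cl _ _).symm (Cl.t2 t1 t2 z)))
      have h5 := Cl.t2 t1 (surg t2 p z) x
      rw [surg_of_ne i2 hxp h2 h3 h4] at h5
      rw [Finset.mem_erase, hT]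
      refine ⟨?_, (Cl _ _).trans hx1 h5, (Cl _ _).trans hx2 (Cl.t2 _ _ x)⟩
      intro h6
      apply h3
      rw [← h6, i2]
    · intro x _
      exact i2 x
    · intro x _
      exact f2 x
  have e3 : T.card = (T.erase p).card + 1 := by
    rw [Finset.card_erase_of_mem hp]
    have := Finset.card_pos.2 ⟨p, hp⟩
    omega
  rw [e3] at e1
  obtain ⟨a, ha⟩ := e1
  obtain ⟨b, hb⟩ := e2
  omega

include i1 f1 i2 f2 hz2 in
theorem surg_ge_of_ne [Finite Φ] (hpz : ¬ Cl t1 t2 p z) {x y : Φ} (h : Cl t1 t2 x y) :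
    Cl t1 (surg t2 p z) x y := by
  have h1 := surg_merge i2 f2 hz2 i1 f1 hpz
  have h2 : z ≠ surg t2 p z p := by
    rw [surg_p i2 f2 hz2]
    exact (f2 z).symm
  apply surg_le_of_same (surg_invol i2) (surg_fpf f2) h2 h1
  rwa [surg_surg]

include i1 f1 i2 f2 hz2 in
/-- Surgery between different classes loses at most one class. -/
theorem ncl_merge [Finite Φ] (hpz : ¬ Cl t1 t2 p z) :
    ncl t1 t2 ≤ ncl t1 (surg t2 p z) + 1 := by
  apply ncl_le_add_one {x | Cl t1 t2 z x} p
  · intro x y h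
    exact surg_le i2 f2 hz2 h
  · intro x hx y hy
    exact (Cl _ _).trans ((Cl _ _).symm hx) hy
  · intro x y h
    exact surg_ge_of_ne i2 f2 hz2 i1 f1 hpz h

include i2 f2 hz2 in
theorem ncl_same [Finite Φ] (hpz : Cl t1 t2 p z) :
    ncl t1 t2 ≤ ncl t1 (surg t2 p z) :=
  ncl_le_of_le (fun _ _ h => surg_le_of_same i2 f2 hz2 hpz h)

end surgery

section split

variable {Φ : Type u} [DecidableEq Φ] {t1 : Φ → Φ} {t2 : Perm Φ}
  (i1 : ∀ x, t1 (t1 x) = x) (f1 : ∀ x, t1 x ≠ x)
  (i2 : ∀ x, t2 (t2 x) = x) (f2 : ∀ x, t2 x ≠ x)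

/-- The rotation `t1 ∘ t2`. -/
def rot (t1 : Φ → Φ) (t2 : Φ → Φ) : Φ → Φ := fun x => t1 (t2 x)

include f1 f2 i1 i2 in
theorem rot_iter_ne (m : ℕ) : ∀ z, (rot t1 t2)^[m] z ≠ t2 z := by
  induction m using Nat.strong_induction_on with
  | _ m ih =>
    intro z h
    match m, ih, h with
    | 0, _, h => exact f2 z h.symm
    | 1, _, h => exact f1 _ h
    | k + 2, ih, h =>
      apply ih k (by omega) (rot t1 t2 z)
      have h1 : (rot t1 t2)^[k + 2] z = rot t1 t2 ((rot t1 t2)^[k] (rot t1 t2 z)) := by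
        rw [← Function.iterate_succ_apply, ← Function.iterate_succ_apply' (rot t1 t2)]
      rw [h1] at h
      have h2 := congrArg t1 h
      simp only [rot] at h2
      rw [i1] at h2
      have h3 := congrArg t2 h2
      rw [i2] at h3
      exact h3

include f1 f2 i1 i2 in
theorem rot_iter_ne' (p : Φ) (i j : ℕ) :
    (rot t1 t2)^[i] p ≠ t2 ((rot t1 t2)^[j] p) := by
  intro h
  rcases le_total j i with hij | hij
  · apply rot_iter_ne i1 f1 i2 f2 (i - j) ((rot t1 t2)^[j] p)
    rw [← Function.iterate_add_apply, Nat.sub_add_cancel hij, h]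
  · apply rot_iter_ne i1 f1 i2 f2 (j - i) ((rot t1 t2)^[i] p)
    rw [← Function.iterate_add_apply, Nat.sub_add_cancel hij, h, i2]

include i1 in
theorem rot_inj (i2 : ∀ x, t2 (t2 x) = x) : Function.Injective (rot t1 t2) := by
  intro x y h
  have h1 := congrArg t1 h
  simp only [rot, i1] at h1
  exact t2.injective h1

include i1 i2 in
theorem mem_class [Finite Φ] {p q : Φ} (h : Cl t1 t2 p q) :
    ∃ m : ℕ, q = (rot t1 t2)^[m] p ∨ q = t2 ((rot t1 t2)^[m] p) := by
  have hper : p ∈ Function.periodicPts (rot t1 t2) :=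
    Function.Injective.mem_periodicPts (rot_inj i1 i2) p
  have hpos := Function.minimalPeriod_pos_of_mem_periodicPts hper
  have key := Cl.mem_iff i1 i2
    {q | ∃ m : ℕ, q = (rot t1 t2)^[m] p ∨ q = t2 ((rot t1 t2)^[m] p)} ?_ ?_ h
  · exact key.1 ⟨0, Or.inl rfl⟩
  · rintro x ⟨m, rfl | rfl⟩
    · rcases m with _ | m
      · refine ⟨Function.minimalPeriod (rot t1 t2) p - 1, Or.inr ?_⟩
        have h1 : (rot t1 t2)^[Function.minimalPeriod (rot t1 t2) p - 1 + 1] p = p := by
          rw [Nat.sub_add_cancel hpos]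
          exact Function.iterate_minimalPeriod
        rw [Function.iterate_succ_apply'] at h1
        simp only [Function.iterate_zero, id]
        conv_lhs => rw [← h1]
        simp only [rot, i1]
      · refine ⟨m, Or.inr ?_⟩
        rw [Function.iterate_succ_apply']
        simp only [rot, i1]
    · refine ⟨m + 1, Or.inl ?_⟩
      rw [Function.iterate_succ_apply']
      rfl
  · rintro x ⟨m, rfl | rfl⟩
    · exact ⟨m, Or.inr rfl⟩
    · exact ⟨m, Or.inl (i2 _)⟩

include i1 f1 i2 f2 in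
theorem split_aux {p : Φ} {m : ℕ} (hm : 0 < m)
    (hm2 : m < Function.minimalPeriod (rot t1 t2) p) :
    ¬ Cl t1 (surg t2 p ((rot t1 t2)^[m] p)) (t2 p) p := by
  intro hc
  set s := rot t1 t2 with hs
  set z := s^[m] p with hz
  have par : ∀ i j, s^[i] p ≠ t2 (s^[j] p) := rot_iter_ne' i1 f1 i2 f2 p
  have inj : ∀ i j, i < Function.minimalPeriod s p → j < Function.minimalPeriod s p →
      s^[i] p = s^[j] p → i = j := by
    intro i j hi hj h
    exact Function.iterate_injOn_Iio_minimalPeriod (Set.mem_Iio.2 hi) (Set.mem_Iio.2 hj) h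
  have hz2 : z ≠ t2 p := par m 0
  let S : Set Φ := {x | (∃ i < m, x = t2 (s^[i] p)) ∨ (∃ i, 1 ≤ i ∧ i ≤ m ∧ x = s^[i] p)}
  have key := Cl.mem_iff i1 (surg_invol i2 (p := p) (z := z)) S ?_ ?_ hc
  · have h1 : p ∈ S := key.1 (Or.inl ⟨0, hm, rfl⟩)
    rcases h1 with ⟨i, hi, h⟩ | ⟨i, hi, hi', h⟩
    · exact par 0 i h
    · have := inj 0 i (by omega) (by omega) h
      omega
  · rintro x (⟨i, hi, rfl⟩ | ⟨i, hi, hi', rfl⟩)
    · refine Or.inr ⟨i + 1, by omega, by omega, ?_⟩
      rw [Function.iterate_succ_apply']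
      rfl
    · obtain ⟨i, rfl⟩ : ∃ k, i = k + 1 := ⟨i - 1, by omega⟩
      refine Or.inl ⟨i, by omega, ?_⟩
      rw [Function.iterate_succ_apply']
      simp only [hs, rot, i1]
  · rintro x (⟨i, hi, rfl⟩ | ⟨i, hi, hi', rfl⟩)
    · rcases Nat.eq_zero_or_pos i with rfl | hi0
      · refine Or.inr ⟨m, by omega, le_rfl, ?_⟩
        simp only [Function.iterate_zero, id]
        exact surg_t2p i2 f2 hz2
      · refine Or.inr ⟨i, by omega, by omega, ?_⟩
        rw [surg_of_ne i2, i2]
        · exact (par 0 i).symm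
        · exact (par m i).symm
        · intro h
          have := inj i 0 (by omega) (by omega) (t2.injective h)
          omega
        · intro h
          have := inj i m (by omega) (by omega) (t2.injective h)
          omega
    · rcases Nat.lt_or_ge i m with hi2 | hi2
      · refine Or.inl ⟨i, by omega, ?_⟩
        rw [surg_of_ne i2]
        · intro h
          have := inj i 0 (by omega) (by omega) h
          omega
        · intro h
          have := inj i m (by omega) (by omega) h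
          omega
        · exact par i 0
        · exact par i m
      · obtain rfl : i = m := by omega
        refine Or.inl ⟨0, hm, ?_⟩
        exact surg_z f2 hz2

include i1 f1 i2 f2 in
/-- Splitting: if `q` lies in the class of `p` and `q ∉ {p, t2 p}`, then for `z = q` or `z = t2 q`
surgery along `p, z` splits the class. -/
theorem surg_split [Finite Φ] {p q : Φ} (h : Cl t1 t2 p q) (hq : q ≠ p) (hq2 : q ≠ t2 p) :
    ∃ z, (z = q ∨ z = t2 q) ∧ ncl t1 t2 + 1 ≤ ncl t1 (surg t2 p z) := by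
  obtain ⟨m, hm⟩ := mem_class i1 i2 h
  have hper : p ∈ Function.periodicPts (rot t1 t2) :=
    Function.Injective.mem_periodicPts (rot_inj i1 i2) p
  have hpos := Function.minimalPeriod_pos_of_mem_periodicPts hper
  set k := m % Function.minimalPeriod (rot t1 t2) p with hk
  have hk2 : k < Function.minimalPeriod (rot t1 t2) p := Nat.mod_lt _ hpos
  have hk3 : (rot t1 t2)^[k] p = (rot t1 t2)^[m] p := Function.iterate_mod_minimalPeriod_eq
  have hk4 : (rot t1 t2)^[k] p = q ∨ (rot t1 t2)^[k] p = t2 q := by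
    rcases hm with hm | hm
    · left
      rw [hk3, hm]
    · right
      rw [hk3, hm, i2]
  have hk5 : 0 < k := by
    rcases Nat.eq_zero_or_pos k with h0 | h0
    · rw [h0] at hk4
      simp only [Function.iterate_zero, id] at hk4
      rcases hk4 with h | h
      · exact absurd h.symm hq
      · exfalso
        apply hq2
        rw [h, i2]
    · exact h0
  refine ⟨(rot t1 t2)^[k] p, hk4, ?_⟩
  have hz2 : (rot t1 t2)^[k] p ≠ t2 p := rot_iter_ne' i1 f1 i2 f2 p k 0
  have hcl : Cl t1 t2 p ((rot t1 t2)^[k] p) := by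
    rcases hk4 with h1 | h1
    · rw [h1]; exact h
    · rw [h1]; exact (Cl _ _).trans h (Cl.t2 _ _ q)
  apply ncl_lt_of_le (a := t2 p) (b := p)
  · intro x y hxy
    exact surg_le_of_same i2 f2 hz2 hcl hxy
  · exact (Cl _ _).symm (Cl.t2 _ _ p)
  · exact split_aux i1 f1 i2 f2 hk5 hk2

include i2 f2 in
/-- Classes other than that of `p` are unchanged by surgery inside the class of `p`. -/
theorem surg_same_outside {z : Φ} {p : Φ} (hz2 : z ≠ t2 p) (hpz : Cl t1 t2 p z) {x y : Φ}
    (hx : ¬ Cl t1 t2 p x) (h : Cl t1 t2 x y) : Cl t1 (surg t2 p z) x y := by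
  have h2 : z ≠ surg t2 p z p := by
    rw [surg_p i2 f2 hz2]
    exact (f2 z).symm
  have h3 : Cl t1 (surg (surg t2 p z) p z) x y := by
    rw [surg_surg]
    exact h
  rcases surg_le (surg_invol i2) (surg_fpf f2) h2 h3 with h | ⟨h4, _⟩
  · exact h
  · exfalso
    apply hx
    rcases h4 with h4 | h4
    · exact surg_le_of_same i2 f2 hz2 hpz h4
    · exact (Cl _ _).trans hpz (surg_le_of_same i2 f2 hz2 hpz h4)

end split

end Helper691
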